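import Pool.Agent.Helper13_FK.Stmts

/-!
# Squad FK, module FIN: the theorem
-/

namespace Pool.Agent.FK.H13

open NumberField Polynomial Module

theorem fin (hnlo : NloStmt) (hfpo : FpoStmt) (hhgt : HgtStmt) (hbox : BoxStmt) : FinStmt := by
  intro n hn
  obtain ⟨C₀, hC₀⟩ := hhgt n hn
  refine ⟨C₀, ?_⟩
  intro κ hκ ι _ K _ _ hsum
  have hcard : Fintype.card (Emb K) = n := by
    rw [← hsum, Fintype.card_sigma]
    exact Finset.sum_congr rfl fun a _ => Embeddings.card (K a) ℂ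
  refine ⟨?_, ?_⟩
  · obtain ⟨c, hc, hcb⟩ := (hbox ι K).2
    refine ⟨c, hc, fun H hH => ?_⟩
    have h1 := hcb H (by exact_mod_cast hH)
    rwa [hcard] at h1
  · set g : ℕ := (n - 1) / 2 with hg
    have hg1 : 1 ≤ g := by omega
    have hgn : g + 2 ≤ n := by omega
    have hn0 : (0 : ℝ) < n := by
      have : 0 < n := by omega
      exact_mod_cast this
    have hgR : (1 : ℝ) ≤ g := by exact_mod_cast hg1
    have hgnR : (g : ℝ) + 2 ≤ n := by exact_mod_cast hgn
    have hE : 0 < (g : ℝ) * ((n : ℝ) - g - 1) := mul_pos (by linarith) (by linarith)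
    have hκ0 : 0 < κ := lt_trans (div_pos hE hn0) hκ
    rw [div_lt_iff₀ hn0] at hκ
    set ε : ℝ := (κ * n - (g : ℝ) * ((n : ℝ) - g - 1)) / (2 * κ) with hεdef
    have hε : 0 < ε := div_pos (by linarith) (by linarith)
    have hεκ : κ * ((n : ℝ) / 2 - ε) = (g : ℝ) * ((n : ℝ) - g - 1) / 2 := by
      rw [hεdef]
      field_simp
      ring
    obtain ⟨η, hη, C, hC⟩ := hnlo ι K n hcard hn ε hε
    refine ⟨η, hη, C, fun H hH => ?_⟩
    refine le_trans ?_ (hC H hH)
    have hH1 : (1 : ℝ) ≤ H := by exact_mod_cast hH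
    have hH0 : (0 : ℝ) < H := by linarith
    have hfinB : (Box K H).Finite := ((hbox ι K).1 H (by linarith)).1
    refine Nat.cast_le.mpr (Set.ncard_le_ncard ?_ (hfinB.subset fun e he => he.1))
    rintro e ⟨heB, hen⟩
    refine ⟨heB, ?_⟩
    rintro ⟨hinj, hall⟩
    apply hen
    obtain ⟨f, hf⟩ := hfpo ι K e
    refine ⟨f, hf, ?_⟩
    have h1 := hall f hf
    obtain ⟨h2, _, h3⟩ := hC₀ (Emb K) (cj K e) f hcard hinj hf
    apply h2
    refine (h3 H hH1 heB).trans ?_
    have h4 : ((n : ℝ) / 2 - ε) * Real.log H ≤ Real.log (Helper5Frey.Nstar f) := by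
      rw [← Real.log_rpow hH0]
      exact Real.log_le_log (by positivity) h1
    have h5 := mul_le_mul_of_nonneg_left h4 hκ0.le
    rw [← mul_assoc, hεκ] at h5
    linarith

end Pool.Agent.FK.H13
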