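import Pool.Agent.Helper13_FK.Nlp1

/-!
# Squad FK, stronger form of NLO, part 2: the pieces inside one component
-/

namespace Pool.Agent.FK.H13

open NumberField Polynomial Module

section

variable {ι : Type} [Fintype ι] (K : ι → Type) [∀ a, Field (K a)] [∀ a, NumberField (K a)]

theorem own_lower (hfph : FphStmt) {n : ℕ} (hn : 1 ≤ n) (en : Fin n ≃ Emb K) (e v : RR K)
    (hv : Function.Injective (cj K v)) (k : ℤ)
    (hk : (k : ℂ) = ∏ i, ∏ j ∈ Finset.Ioi i, ((cj K v (en j) - cj K v (en i)) *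
      (cj K e (en j) - cj K e (en i)))) (H δ : ℝ) (hH1 : 1 ≤ H) (hδ1 : δ < 1)
    (hl : ∀ i j : Emb K, i ≠ j → H ^ (1 - δ) ≤ ‖cj K e i - cj K e j‖) :
    H ^ ((1 - δ) * ((n : ℝ) - 1)) ≤ (k.natAbs : ℝ) := by
  have hH0 : 0 < H := by linarith
  have h0 : (k.natAbs : ℝ) = ∏ i, ∏ j ∈ Finset.Ioi i, (‖cj K v (en j) - cj K v (en i)‖ *
      ‖cj K e (en j) - cj K e (en i)‖) := by
    have h1 : (k.natAbs : ℝ) = ‖(k : ℂ)‖ := by
      rw [Complex.norm_intCast, Nat.cast_natAbs, Int.cast_abs]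
    rw [h1, hk, norm_prod]
    refine Finset.prod_congr rfl fun i _ => ?_
    rw [norm_prod]
    exact Finset.prod_congr rfl fun j _ => norm_mul _ _
  rw [h0]
  have hV : 1 ≤ ∏ i, ∏ j ∈ Finset.Ioi i, ‖cj K v (en j) - cj K v (en i)‖ := by
    obtain ⟨k, hk⟩ := exists_k K hfph en v v
    have h1 : ‖(k : ℂ)‖ = (∏ i, ∏ j ∈ Finset.Ioi i, ‖cj K v (en j) - cj K v (en i)‖) ^ 2 := by
      rw [hk, norm_prod, ← Finset.prod_pow]
      refine Finset.prod_congr rfl fun i _ => ?_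
      rw [norm_prod, ← Finset.prod_pow]
      refine Finset.prod_congr rfl fun j _ => ?_
      rw [norm_mul, sq]
    have hpos : 0 < ∏ i, ∏ j ∈ Finset.Ioi i, ‖cj K v (en j) - cj K v (en i)‖ := by
      refine Finset.prod_pos fun i _ => Finset.prod_pos fun j hj => ?_
      rw [norm_pos_iff, sub_ne_zero]
      intro h
      exact (Finset.mem_Ioi.mp hj).ne' (en.injective (hv h))
    have hk0 : k ≠ 0 := by
      rintro rfl
      rw [Int.cast_zero, norm_zero] at h1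
      exact (pow_pos hpos 2).ne h1
    have hk1 : 1 ≤ ‖(k : ℂ)‖ := by
      rw [Complex.norm_intCast]
      exact_mod_cast Int.one_le_abs hk0
    rw [h1] at hk1
    exact (one_le_sq_iff₀ hpos.le).mp hk1
  have hE : H ^ ((1 - δ) * ((n : ℝ) - 1)) ≤
      ∏ i, ∏ j ∈ Finset.Ioi i, ‖cj K e (en j) - cj K e (en i)‖ := by
    have h1 : ∏ i : Fin n, ∏ j ∈ Finset.Ioi i, H ^ (1 - δ) ≤
        ∏ i, ∏ j ∈ Finset.Ioi i, ‖cj K e (en j) - cj K e (en i)‖ := by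
      refine Finset.prod_le_prod (fun i _ => Finset.prod_nonneg fun j _ => by positivity)
        fun i _ => Finset.prod_le_prod (fun j _ => by positivity) fun j hj => ?_
      exact hl _ _ (fun h => (Finset.mem_Ioi.mp hj).ne' (en.injective h))
    refine le_trans ?_ h1
    simp only [Finset.prod_const]
    rw [Finset.prod_pow_eq_pow_sum]
    have h2 : n - 1 ≤ ∑ i : Fin n, (Finset.Ioi i).card := by
      have h3 := Finset.single_le_sum (f := fun i : Fin n => (Finset.Ioi i).card)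
        (fun _ _ => Nat.zero_le _) (Finset.mem_univ (⟨0, by omega⟩ : Fin n))
      simp only [Fin.card_Ioi, Nat.sub_zero] at h3
      simpa using h3
    have h4 : (1 : ℝ) ≤ H ^ (1 - δ) := Real.one_le_rpow hH1 (by linarith)
    refine le_trans ?_ (pow_le_pow_right₀ h4 h2)
    rw [← Real.rpow_natCast, ← Real.rpow_mul hH0.le, Nat.cast_sub hn, Nat.cast_one]
  have h5 : ∏ i, ∏ j ∈ Finset.Ioi i, (‖cj K v (en j) - cj K v (en i)‖ *
      ‖cj K e (en j) - cj K e (en i)‖) =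
      (∏ i, ∏ j ∈ Finset.Ioi i, ‖cj K v (en j) - cj K v (en i)‖) *
      ∏ i, ∏ j ∈ Finset.Ioi i, ‖cj K e (en j) - cj K e (en i)‖ := by
    rw [← Finset.prod_mul_distrib]
    exact Finset.prod_congr rfl fun i _ => Finset.prod_mul_distrib
  rw [h5]
  have h6 : (0 : ℝ) ≤ H ^ ((1 - δ) * ((n : ℝ) - 1)) := by positivity
  calc H ^ ((1 - δ) * ((n : ℝ) - 1)) = 1 * H ^ ((1 - δ) * ((n : ℝ) - 1)) := by rw [one_mul]
    _ ≤ _ := mul_le_mul hV hE h6 (le_trans zero_le_one hV)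

omit [Fintype ι] in
open Classical in
/-- The piece inside the component `a`. -/
theorem own_piece (hfph : FphStmt) (e v : RR K) (hv : Function.Injective (cj K v)) (a : ι)
    (H δ : ℝ) (hH1 : 1 ≤ H) (hδ1 : δ < 1)
    (hl : ∀ i j : Emb K, i ≠ j → H ^ (1 - δ) ≤ ‖cj K e i - cj K e j‖) :
    ∃ y : ℤ, (y : ℂ) ^ 2 = ∏ σ : K a →+* ℂ, ∏ τ : K a →+* ℂ,
      (if (⟨a, σ⟩ : Emb K) = ⟨a, τ⟩ then 1 else (cj K v ⟨a, σ⟩ - cj K v ⟨a, τ⟩) *
        (cj K e ⟨a, σ⟩ - cj K e ⟨a, τ⟩)) ∧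
      H ^ ((1 - δ) * ((finrank ℚ (K a) : ℝ) - 1)) ≤ (y.natAbs : ℝ) := by
  let K' : Unit → Type := fun _ => K a
  let e' : RR K' := fun _ => e a
  let v' : RR K' := fun _ => v a
  have hcard : Fintype.card (Emb K') = finrank ℚ (K a) := by
    rw [Fintype.card_sigma, Fintype.sum_unique]
    exact Embeddings.card (K a) ℂ
  let en : Fin (finrank ℚ (K a)) ≃ Emb K' := (Fintype.equivFinOfCardEq hcard).symm
  have hv' : Function.Injective (cj K' v') := by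
    rintro ⟨⟨⟩, σ⟩ ⟨⟨⟩, τ⟩ h
    have h1 : cj K v ⟨a, σ⟩ = cj K v ⟨a, τ⟩ := h
    have h2 := hv h1
    rw [Sigma.mk.injEq] at h2
    rw [eq_of_heq h2.2]
  obtain ⟨y, hy⟩ := exists_k K' hfph en e' v'
  refine ⟨y, ?_, ?_⟩
  · rw [sq_eq K' en e' v' y hy, Fintype.prod_sigma, Fintype.prod_unique]
    refine Finset.prod_congr rfl fun σ _ => ?_
    rw [Fintype.prod_sigma, Fintype.prod_unique]
    refine Finset.prod_congr rfl fun τ _ => ?_
    by_cases h : σ = τ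
    · subst h
      simp
    · have h1 : (⟨default, σ⟩ : Emb K') ≠ ⟨default, τ⟩ := by
        intro hh
        rw [Sigma.mk.injEq] at hh
        exact h (eq_of_heq hh.2)
      have h2 : (⟨a, σ⟩ : Emb K) ≠ ⟨a, τ⟩ := by
        intro hh
        rw [Sigma.mk.injEq] at hh
        exact h (eq_of_heq hh.2)
      rw [if_neg h1, if_neg h2]
      rfl
  · refine own_lower K' hfph finrank_pos en e' v' hv' y hy H δ hH1 hδ1 ?_
    rintro ⟨⟨⟩, σ⟩ ⟨⟨⟩, τ⟩ h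
    refine hl ⟨a, σ⟩ ⟨a, τ⟩ ?_
    intro hh
    rw [Sigma.mk.injEq] at hh
    apply h
    rw [eq_of_heq hh.2]

open Classical in
theorem own_dvd {n : ℕ} (en : Fin n ≃ Emb K) (e v : RR K) (k y : ℤ)
    (hk : (k : ℂ) = ∏ i, ∏ j ∈ Finset.Ioi i, ((cj K v (en j) - cj K v (en i)) *
      (cj K e (en j) - cj K e (en i)))) (a : ι)
    (hy : (y : ℂ) ^ 2 = ∏ σ : K a →+* ℂ, ∏ τ : K a →+* ℂ,
      (if (⟨a, σ⟩ : Emb K) = ⟨a, τ⟩ then 1 else (cj K v ⟨a, σ⟩ - cj K v ⟨a, τ⟩) *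
        (cj K e ⟨a, σ⟩ - cj K e ⟨a, τ⟩))) (hy0 : y ≠ 0) : y ∣ k := by
  have h1 := sq_eq K en e v k hk
  set G : Emb K → Emb K → ℂ := fun i j =>
    (if i = j then 1 else (cj K v i - cj K v j) * (cj K e i - cj K e j)) with hG
  have hGint : ∀ i j, IsIntegral ℤ (G i j) := by
    intro i j
    simp only [hG]
    split_ifs
    · exact isIntegral_one
    · exact ((cj_int K v i).sub (cj_int K v j)).mul ((cj_int K e i).sub (cj_int K e j))
  let F : ι × ι → ℂ := fun x => ∏ σ : K x.1 →+* ℂ, ∏ τ : K x.2 →+* ℂ, G ⟨x.1, σ⟩ ⟨x.2, τ⟩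
  have hFint : ∀ x, IsIntegral ℤ (F x) := fun x =>
    IsIntegral.prod _ fun σ _ => IsIntegral.prod _ fun τ _ => hGint _ _
  have h2 : ∏ i : Emb K, ∏ j : Emb K, G i j = ∏ x : ι × ι, F x := by
    rw [Fintype.prod_sigma, Fintype.prod_prod_type]
    refine Finset.prod_congr rfl fun a _ => ?_
    have h6 : ∏ b : ι, F (a, b) = ∏ σ : K a →+* ℂ, ∏ b : ι, ∏ τ : K b →+* ℂ,
        G ⟨a, σ⟩ ⟨b, τ⟩ :=
      Finset.prod_comm (s := Finset.univ) (t := Finset.univ)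
        (f := fun (b : ι) (σ : K a →+* ℂ) => ∏ τ : K b →+* ℂ, G ⟨a, σ⟩ ⟨b, τ⟩)
    rw [h6]
    refine Finset.prod_congr rfl fun σ _ => ?_
    rw [Fintype.prod_sigma]
  have h3 : ∏ x : ι × ι, F x = F (a, a) * ∏ x ∈ Finset.univ.erase (a, a), F x :=
    (Finset.mul_prod_erase Finset.univ F (Finset.mem_univ (a, a))).symm
  have h4 : ((k ^ 2 : ℤ) : ℂ) = ((y ^ 2 : ℤ) : ℂ) *
      ∏ x ∈ Finset.univ.erase (a, a), F x := by
    push_cast
    rw [h1, h2, h3, hy]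
  have h5 : y ^ 2 ∣ k ^ 2 := by
    refine int_dvd (pow_ne_zero 2 hy0) ?_ h4
    exact IsIntegral.prod _ fun x _ => hFint x
  exact (Int.pow_dvd_pow_iff two_ne_zero).mp h5

omit [Fintype ι] in
open Classical in
theorem own_val (hvzi : VziStmt) (B : ℕ → ValuationSubring ℂ) (hB : GoodB B) (e v : RR K)
    (a : ι) (y : ℤ)
    (hy : (y : ℂ) ^ 2 = ∏ σ : K a →+* ℂ, ∏ τ : K a →+* ℂ,
      (if (⟨a, σ⟩ : Emb K) = ⟨a, τ⟩ then 1 else (cj K v ⟨a, σ⟩ - cj K v ⟨a, τ⟩) *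
        (cj K e ⟨a, σ⟩ - cj K e ⟨a, τ⟩)))
    (p : ℕ) (hp : p.Prime) (hd : (p : ℤ) ∣ y)
    (hvu : ∀ i j : Emb K, i ≠ j → (B p).valuation (cj K v i - cj K v j) = 1) :
    ∃ σ τ, (⟨a, σ⟩ : Emb K) ≠ ⟨a, τ⟩ ∧
      (B p).valuation (cj K e ⟨a, σ⟩ - cj K e ⟨a, τ⟩) < 1 := by
  by_contra hcon
  push Not at hcon
  have h1 := ((hvzi B hB p hp y).1).mpr hd
  have h2 : (B p).valuation ((y : ℂ) ^ 2) < 1 := by
    rw [map_pow]
    exact pow_lt_one₀ zero_le h1 two_ne_zero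
  rw [hy, map_prod] at h2
  refine absurd h2 (not_lt.mpr (le_of_eq ?_))
  symm
  refine Finset.prod_eq_one fun σ _ => ?_
  rw [map_prod]
  refine Finset.prod_eq_one fun τ _ => ?_
  split_ifs with h
  · exact map_one _
  · rw [map_mul, hvu _ _ h, one_mul]
    exact le_antisymm (val_le_one K hB hp e _ _) (hcon σ τ h)

end

end Pool.Agent.FK.H13
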