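import Pool.Agent.Helper13_FK.Nlo
import Pool.Agent.Helper13_FK.Nlp2

/-!
# Squad FK, stronger form of NLO: all pieces
-/

namespace Pool.Agent.FK.H13

open NumberField Polynomial Module

/-- Twice the exponent: the sum of the `max (n a) (n b)` over all pairs, minus the number of the
components of degree one. -/
noncomputable def dd {ι : Type} [Fintype ι] (K : ι → Type) [∀ a, Field (K a)]
    [∀ a, NumberField (K a)] : ℝ :=
  ((∑ a, ∑ b, max (finrank ℚ (K a)) (finrank ℚ (K b)) : ℕ) : ℝ) -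
    ((Finset.univ.filter fun a => finrank ℚ (K a) = 1).card : ℝ)

theorem sum_pairs {ι : Type} [Fintype ι] [LinearOrder ι] (m : ι → ℕ) (hm : ∀ a, 1 ≤ m a) :
    ((∑ a, ∑ b, max (m a) (m b) : ℕ) : ℝ) - ((Finset.univ.filter fun a => m a = 1).card : ℝ) =
      2 * (∑ q : {q : ι × ι // q.1 < q.2}, ((max (m q.1.1) (m q.1.2) : ℕ) : ℝ) +
        ∑ a : {a : ι // 2 ≤ m a}, (m a.1 : ℝ) / 2) := by
  classical
  have h1 : ∑ q : {q : ι × ι // q.1 < q.2}, ((max (m q.1.1) (m q.1.2) : ℕ) : ℝ) =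
      ∑ x : ι × ι, if x.1 < x.2 then ((max (m x.1) (m x.2) : ℕ) : ℝ) else 0 := by
    rw [← Finset.sum_filter]
    exact (Finset.sum_subtype (Finset.univ.filter fun x : ι × ι => x.1 < x.2)
      (fun x => by simp) (fun x : ι × ι => ((max (m x.1) (m x.2) : ℕ) : ℝ))).symm
  have h2 : ∑ a : {a : ι // 2 ≤ m a}, (m a.1 : ℝ) / 2 =
      ∑ a : ι, if 2 ≤ m a then (m a : ℝ) / 2 else 0 := by
    rw [← Finset.sum_filter]
    exact (Finset.sum_subtype (Finset.univ.filter fun x : ι => 2 ≤ m x)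
      (fun x => by simp) (fun x : ι => (m x : ℝ) / 2)).symm
  have h3 : ∑ x : ι × ι, (if x.1 < x.2 then ((max (m x.1) (m x.2) : ℕ) : ℝ) else 0) =
      ∑ x : ι × ι, (if x.2 < x.1 then ((max (m x.1) (m x.2) : ℕ) : ℝ) else 0) := by
    rw [Fintype.sum_prod_type, Fintype.sum_prod_type, Finset.sum_comm]
    refine Finset.sum_congr rfl fun a _ => Finset.sum_congr rfl fun b _ => ?_
    rw [max_comm]
  have h4 : ((∑ a, ∑ b, max (m a) (m b) : ℕ) : ℝ) =
      ∑ x : ι × ι, ((max (m x.1) (m x.2) : ℕ) : ℝ) := by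
    rw [Fintype.sum_prod_type]
    push_cast
    rfl
  have h5 : ((Finset.univ.filter fun a => m a = 1).card : ℝ) =
      ∑ a : ι, if m a = 1 then (1 : ℝ) else 0 := by
    rw [← Finset.sum_filter, Finset.sum_const, nsmul_eq_mul, mul_one]
  have h6 : ∑ x : ι × ι, ((max (m x.1) (m x.2) : ℕ) : ℝ) =
      ∑ x : ι × ι, (if x.1 < x.2 then ((max (m x.1) (m x.2) : ℕ) : ℝ) else 0) +
      ∑ x : ι × ι, (if x.2 < x.1 then ((max (m x.1) (m x.2) : ℕ) : ℝ) else 0) +
      ∑ a : ι, (m a : ℝ) := by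
    have h7 : ∑ a : ι, (m a : ℝ) = ∑ x : ι × ι, if x.1 = x.2 then (m x.1 : ℝ) else 0 := by
      rw [Fintype.sum_prod_type]
      refine Finset.sum_congr rfl fun a _ => ?_
      simp
    rw [h7, ← Finset.sum_add_distrib, ← Finset.sum_add_distrib]
    refine Finset.sum_congr rfl fun x _ => ?_
    rcases lt_trichotomy x.1 x.2 with h | h | h
    · simp [h, h.ne, h.not_gt]
    · simp [h]
    · simp [h, h.ne', h.not_gt]
  have h8 : ∑ a : ι, (m a : ℝ) - ∑ a : ι, (if m a = 1 then (1 : ℝ) else 0) =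
      2 * ∑ a : ι, if 2 ≤ m a then (m a : ℝ) / 2 else 0 := by
    rw [Finset.mul_sum, ← Finset.sum_sub_distrib]
    refine Finset.sum_congr rfl fun a _ => ?_
    have := hm a
    by_cases h : m a = 1
    · simp [h]
    · have h9 : 2 ≤ m a := by omega
      simp only [h, h9, if_true, if_false]
      ring
  rw [h1, h2, h4, h5, h6, ← h3]
  linarith

section

variable {ι : Type} [Fintype ι] (K : ι → Type) [∀ a, Field (K a)] [∀ a, NumberField (K a)]

theorem low_all (hlow : LowStmt) (hcpz : CpzStmt) (hvzi : VziStmt)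
    (hfph : FphStmt) {n : ℕ} (en : Fin n ≃ Emb K) (B : ℕ → ValuationSubring ℂ) (hB : GoodB B)
    (v e : RR K) (hv : Function.Injective (cj K v)) (δ δ' ε : ℝ) (H : ℕ) (hH : 1 ≤ H)
    (hδ : 0 < δ) (hδ1 : δ < 1) (hδ' : 0 < δ')
    (N M : ℕ) (hge : GE K n en B δ δ' H v e N M) (hno : NoSq K B v δ H e)
    (hε : ((n : ℝ) ^ 2 + n) * (δ * (n : ℝ) ^ 2 + δ' + δ) ≤ ε) :
    (H : ℝ) ^ (dd K / 2 - ε) ≤
      ((∏ p ∈ N.primeFactors.filter (fun p => ¬ p ∣ M), p : ℕ) : ℝ) := by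
  classical
  let _ : LinearOrder ι := LinearOrder.lift' (Fintype.equivFin ι) (Fintype.equivFin ι).injective
  have hH1 : (1 : ℝ) ≤ H := by exact_mod_cast hH
  have hH0 : (0 : ℝ) < H := by linarith
  have hcard : Fintype.card (Emb K) = n := by rw [← Fintype.card_congr en, Fintype.card_fin]
  have hsum := sum_finrank K hcard
  have hle : ∀ a, finrank ℚ (K a) ≤ n := fun a => by
    rw [← hsum]
    exact Finset.single_le_sum (f := fun a => finrank ℚ (K a)) (fun _ _ => Nat.zero_le _)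
      (Finset.mem_univ a)
  have hpos : ∀ a, 1 ≤ finrank ℚ (K a) := fun a => finrank_pos
  have hcardι : Fintype.card ι ≤ n := by
    rw [← hsum, ← Finset.card_univ, Finset.card_eq_sum_ones]
    exact Finset.sum_le_sum fun a _ => hpos a
  -- cross pieces
  choose Z hZ using fun q : {q : ι × ι // q.1 < q.2} =>
    hcpz (K q.1.1) (K q.1.2) (e q.1.1) (e q.1.2)
  have hZ' : ∀ q : {q : ι × ι // q.1 < q.2}, ∏ σ : K q.1.1 →+* ℂ, ∏ τ : K q.1.2 →+* ℂ,
      (cj K e ⟨q.1.1, σ⟩ - cj K e ⟨q.1.2, τ⟩) = (Z q : ℂ) := hZ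
  have hne : ∀ q : {q : ι × ι // q.1 < q.2}, q.1.1 ≠ q.1.2 := fun q => q.2.ne
  have hlowq : ∀ q : {q : ι × ι // q.1 < q.2},
      (H : ℝ) ^ ((1 - δ) * ((finrank ℚ (K q.1.1) : ℝ) * finrank ℚ (K q.1.2))) ≤
        ((Z q).natAbs : ℝ) := by
    intro q
    refine cross_low K e H δ hH1 q.1.1 q.1.2 (Z q) (hZ' q) fun σ τ => hge.low _ _ ?_
    exact fun h => hne q (congrArg Sigma.fst h)
  have hZ0 : ∀ q, Z q ≠ 0 := by
    intro q h0
    have h1 := hlowq q
    rw [h0] at h1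
    have h2 : (0 : ℝ) < (H : ℝ) ^ ((1 - δ) * ((finrank ℚ (K q.1.1) : ℝ) *
      finrank ℚ (K q.1.2))) := by positivity
    simp only [Int.natAbs_zero, Nat.cast_zero] at h1
    linarith
  -- own pieces
  choose Y hY hlowa using fun a : {a : ι // 2 ≤ finrank ℚ (K a)} =>
    own_piece K hfph e v hv a.1 H δ hH1 hδ1 hge.low
  have hY0 : ∀ a, Y a ≠ 0 := by
    intro a h0
    have h1 := hlowa a
    rw [h0] at h1
    have h2 : (0 : ℝ) < (H : ℝ) ^ ((1 - δ) * ((finrank ℚ (K a.1) : ℝ) - 1)) := by positivity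
    simp only [Int.natAbs_zero, Nat.cast_zero] at h1
    linarith
  obtain ⟨k, hk⟩ := exists_k K hfph en e v
  have hNk := natAbs_eq K en e v k N hk hge.eqN
  have hdvd : ∀ q, (Z q).natAbs ∣ N := by
    intro q
    rw [hNk]
    exact Int.natAbs_dvd_natAbs.mpr (cross_dvd K en e v k (Z q) hk q.1.1 q.1.2 (hne q) (hZ' q)
      (hZ0 q))
  have hdvda : ∀ a, (Y a).natAbs ∣ N := by
    intro a
    rw [hNk]
    exact Int.natAbs_dvd_natAbs.mpr (own_dvd K en e v k (Y a) hk a.1 (hY a) (hY0 a))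
  have hpair : ∀ (q : {q : ι × ι // q.1 < q.2}) (p : ℕ), p.Prime → p ∣ (Z q).natAbs →
      ∀ i j, OP (B p) (cj K e) i j →
      (i.1 = q.1.1 ∧ j.1 = q.1.2) ∨ (i.1 = q.1.2 ∧ j.1 = q.1.1) := by
    intro q p hp hd i j hop
    obtain ⟨σ, τ, hστ⟩ := cross_val K hvzi B hB e q.1.1 q.1.2 (Z q) (hZ' q) p hp
      (Int.natCast_dvd.mpr hd)
    exact op_cross K hop (hne q) hστ
  have hpaira : ∀ (a : {a : ι // 2 ≤ finrank ℚ (K a)}) (p : ℕ), p.Prime → ¬ p ∣ M →
      p ∣ (Y a).natAbs → ∀ i j, OP (B p) (cj K e) i j → i.1 = a.1 ∧ j.1 = a.1 := by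
    intro a p hp hpM hd i j hop
    obtain ⟨σ, τ, hστ, hlt⟩ := own_val K hvzi B hB e v a.1 (Y a) (hY a) p hp
      (Int.natCast_dvd.mpr hd) fun i' j' hij' =>
        v_unit K hvzi en B hB v e δ δ' H N M hge k hk p hp hpM (hd.trans (hdvda a)) i' j' hij'
    rcases hop.2.2 _ _ hστ hlt with h1 | h1
    · exact ⟨(congrArg Sigma.fst h1.1).symm, (congrArg Sigma.fst h1.2).symm⟩
    · exact ⟨(congrArg Sigma.fst h1.2).symm, (congrArg Sigma.fst h1.1).symm⟩
  have hmain := hlow ({q : ι × ι // q.1 < q.2} ⊕ {a : ι // 2 ≤ finrank ℚ (K a)}) N M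
    (Sum.elim (fun q => (Z q).natAbs) (fun a => (Y a).natAbs)) H δ δ'
    (Sum.elim (fun q => ((max (finrank ℚ (K q.1.1)) (finrank ℚ (K q.1.2)) : ℕ) : ℝ) - δ)
      (fun a => (finrank ℚ (K a.1) : ℝ) / 2 - δ))
    (Sum.elim (fun q => (1 - δ) * ((finrank ℚ (K q.1.1) : ℝ) * finrank ℚ (K q.1.2)))
      (fun a => (1 - δ) * ((finrank ℚ (K a.1) : ℝ) - 1)))
    hH1 hδ hδ' hge.pos ?_ ?_ hge.big hge.tt ?_ ?_
  · refine le_trans ?_ hmain
    set c : ℝ := δ * (n : ℝ) ^ 2 + δ' + δ with hc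
    have hc0 : 0 ≤ c := by positivity
    rw [Fintype.prod_sum_type]
    simp only [Sum.elim_inl, Sum.elim_inr]
    have h1 : ∏ q : {q : ι × ι // q.1 < q.2}, (H : ℝ) ^
        (((max (finrank ℚ (K q.1.1)) (finrank ℚ (K q.1.2)) : ℕ) : ℝ) - c) ≤
        ∏ q : {q : ι × ι // q.1 < q.2},
        min ((H : ℝ) ^ (((max (finrank ℚ (K q.1.1)) (finrank ℚ (K q.1.2)) : ℕ) : ℝ) - δ))
          ((H : ℝ) ^ ((1 - δ) * ((finrank ℚ (K q.1.1) : ℝ) * finrank ℚ (K q.1.2)) - δ')) := by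
      refine Finset.prod_le_prod (fun q _ => by positivity) fun q _ => ?_
      have ha := hpos q.1.1
      have hb := hpos q.1.2
      have ha' := hle q.1.1
      have hb' := hle q.1.2
      have hmax : max (finrank ℚ (K q.1.1)) (finrank ℚ (K q.1.2)) ≤
          finrank ℚ (K q.1.1) * finrank ℚ (K q.1.2) := by
        refine max_le ?_ ?_
        · exact Nat.le_mul_of_pos_right _ hb
        · exact Nat.le_mul_of_pos_left _ ha
      have hprod : finrank ℚ (K q.1.1) * finrank ℚ (K q.1.2) ≤ n ^ 2 := by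
        rw [sq]
        exact Nat.mul_le_mul ha' hb'
      have hmaxR : ((max (finrank ℚ (K q.1.1)) (finrank ℚ (K q.1.2)) : ℕ) : ℝ) ≤
          (finrank ℚ (K q.1.1) : ℝ) * finrank ℚ (K q.1.2) := by exact_mod_cast hmax
      have hprodR : (finrank ℚ (K q.1.1) : ℝ) * finrank ℚ (K q.1.2) ≤ (n : ℝ) ^ 2 := by
        exact_mod_cast hprod
      refine le_min ?_ ?_
      · refine Real.rpow_le_rpow_of_exponent_le hH1 ?_
        have : 0 ≤ δ * (n : ℝ) ^ 2 := by positivity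
        linarith
      · refine Real.rpow_le_rpow_of_exponent_le hH1 ?_
        have : δ * ((finrank ℚ (K q.1.1) : ℝ) * finrank ℚ (K q.1.2)) ≤ δ * (n : ℝ) ^ 2 :=
          mul_le_mul_of_nonneg_left hprodR hδ.le
        linarith
    have h1a : ∏ a : {a : ι // 2 ≤ finrank ℚ (K a)}, (H : ℝ) ^
        ((finrank ℚ (K a.1) : ℝ) / 2 - c) ≤
        ∏ a : {a : ι // 2 ≤ finrank ℚ (K a)},
        min ((H : ℝ) ^ ((finrank ℚ (K a.1) : ℝ) / 2 - δ))
          ((H : ℝ) ^ ((1 - δ) * ((finrank ℚ (K a.1) : ℝ) - 1) - δ')) := by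
      refine Finset.prod_le_prod (fun q _ => by positivity) fun a _ => ?_
      have h2 : (2 : ℝ) ≤ finrank ℚ (K a.1) := by exact_mod_cast a.2
      have h3 : (finrank ℚ (K a.1) : ℝ) ≤ n := by exact_mod_cast hle a.1
      have h4 : (finrank ℚ (K a.1) : ℝ) - 1 ≤ (n : ℝ) ^ 2 := by nlinarith
      refine le_min ?_ ?_
      · refine Real.rpow_le_rpow_of_exponent_le hH1 ?_
        have : 0 ≤ δ * (n : ℝ) ^ 2 := by positivity
        linarith
      · refine Real.rpow_le_rpow_of_exponent_le hH1 ?_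
        have : δ * ((finrank ℚ (K a.1) : ℝ) - 1) ≤ δ * (n : ℝ) ^ 2 :=
          mul_le_mul_of_nonneg_left h4 hδ.le
        linarith
    have h0 : (0 : ℝ) ≤ ∏ a : {a : ι // 2 ≤ finrank ℚ (K a)}, (H : ℝ) ^
        ((finrank ℚ (K a.1) : ℝ) / 2 - c) := Finset.prod_nonneg fun a _ => by positivity
    refine le_trans ?_ (mul_le_mul h1 h1a h0 (Finset.prod_nonneg fun q _ => by positivity))
    rw [rpow_prod H hH0, rpow_prod H hH0, ← Real.rpow_add hH0]
    refine Real.rpow_le_rpow_of_exponent_le hH1 ?_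
    rw [Finset.sum_sub_distrib, Finset.sum_const, nsmul_eq_mul, Finset.sum_sub_distrib,
      Finset.sum_const, nsmul_eq_mul]
    have h2 : dd K = 2 * (∑ q : {q : ι × ι // q.1 < q.2},
        ((max (finrank ℚ (K q.1.1)) (finrank ℚ (K q.1.2)) : ℕ) : ℝ) +
        ∑ a : {a : ι // 2 ≤ finrank ℚ (K a)}, (finrank ℚ (K a.1) : ℝ) / 2) :=
      sum_pairs (fun a => finrank ℚ (K a)) hpos
    have hnι : (Fintype.card ι : ℝ) ≤ n := by exact_mod_cast hcardι
    have h3 : ((Finset.univ : Finset {q : ι × ι // q.1 < q.2}).card : ℝ) ≤ (n : ℝ) ^ 2 := by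
      rw [Finset.card_univ]
      have : Fintype.card {q : ι × ι // q.1 < q.2} ≤ Fintype.card (ι × ι) :=
        Fintype.card_subtype_le _
      rw [Fintype.card_prod, ← sq] at this
      have h5 : (Fintype.card {q : ι × ι // q.1 < q.2} : ℝ) ≤ (Fintype.card ι : ℝ) ^ 2 := by
        exact_mod_cast this
      exact h5.trans (pow_le_pow_left₀ (Nat.cast_nonneg _) hnι 2)
    have h3a : ((Finset.univ : Finset {a : ι // 2 ≤ finrank ℚ (K a)}).card : ℝ) ≤ n := by
      rw [Finset.card_univ]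
      have h6 : Fintype.card {a : ι // 2 ≤ finrank ℚ (K a)} ≤ Fintype.card ι :=
        Fintype.card_subtype_le _
      exact_mod_cast h6.trans hcardι
    have h4 := mul_le_mul_of_nonneg_right h3 hc0
    have h4a := mul_le_mul_of_nonneg_right h3a hc0
    have h7 : ((n : ℝ) ^ 2 + n) * c = (n : ℝ) ^ 2 * c + n * c := by ring
    rw [h7] at hε
    linarith
  · rintro (q | a)
    · exact hdvd q
    · exact hdvda a
  · rintro p hp hpM (q | a) (q' | a') hq hq'
    · simp only [Sum.elim_inl] at hq hq'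
      obtain ⟨i, j, hop, _⟩ := hge.single p hp hpM (hq.trans (hdvd q))
      have h1 := hpair q p hp hq i j hop
      have h2 := hpair q' p hp hq' i j hop
      have hq2 := q.2
      have hq2' := q'.2
      have h3 : q = q' := by
        apply Subtype.ext
        apply Prod.ext
        · rcases h1 with h1 | h1 <;> rcases h2 with h2 | h2
          · rw [← h1.1, ← h2.1]
          · exfalso
            rw [← h1.1, ← h1.2] at hq2
            rw [← h2.1, ← h2.2] at hq2'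
            exact lt_asymm hq2 hq2'
          · exfalso
            rw [← h1.1, ← h1.2] at hq2
            rw [← h2.1, ← h2.2] at hq2'
            exact lt_asymm hq2 hq2'
          · rw [← h1.2, ← h2.2]
        · rcases h1 with h1 | h1 <;> rcases h2 with h2 | h2
          · rw [← h1.2, ← h2.2]
          · exfalso
            rw [← h1.1, ← h1.2] at hq2
            rw [← h2.1, ← h2.2] at hq2'
            exact lt_asymm hq2 hq2'
          · exfalso
            rw [← h1.1, ← h1.2] at hq2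
            rw [← h2.1, ← h2.2] at hq2'
            exact lt_asymm hq2 hq2'
          · rw [← h1.1, ← h2.1]
      rw [h3]
    · exfalso
      simp only [Sum.elim_inl, Sum.elim_inr] at hq hq'
      obtain ⟨i, j, hop, _⟩ := hge.single p hp hpM (hq.trans (hdvd q))
      have h1 := hpair q p hp hq i j hop
      have h2 := hpaira a' p hp hpM hq' i j hop
      rcases h1 with h1 | h1
      · exact hne q (h1.1.symm.trans (h2.1.trans (h2.2.symm.trans h1.2)))
      · exact hne q (h1.2.symm.trans (h2.2.trans (h2.1.symm.trans h1.1)))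
    · exfalso
      simp only [Sum.elim_inl, Sum.elim_inr] at hq hq'
      obtain ⟨i, j, hop, _⟩ := hge.single p hp hpM (hq'.trans (hdvd q'))
      have h1 := hpair q' p hp hq' i j hop
      have h2 := hpaira a p hp hpM hq i j hop
      rcases h1 with h1 | h1
      · exact hne q' (h1.1.symm.trans (h2.1.trans (h2.2.symm.trans h1.2)))
      · exact hne q' (h1.2.symm.trans (h2.2.trans (h2.1.symm.trans h1.1)))
    · simp only [Sum.elim_inr] at hq hq'
      obtain ⟨i, j, hop, _⟩ := hge.single p hp hpM (hq.trans (hdvda a))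
      have h1 := hpaira a p hp hpM hq i j hop
      have h2 := hpaira a' p hp hpM hq' i j hop
      rw [Subtype.ext (h1.1.symm.trans h2.1)]
  · rintro (q | a) p hp hpH hp2
    · simp only [Sum.elim_inl] at hp2 ⊢
      have hpd : p ∣ (Z q).natAbs := (dvd_pow_self p two_ne_zero).trans hp2
      have hpN : p ∣ N := hpd.trans (hdvd q)
      have hpM := hge.big p hp hpH hpN
      have hp1 : (H : ℝ) ^ (1 - δ) < p := by
        by_contra hcon
        exact hge.sq p hp hpH (not_lt.mp hcon) (hp2.trans (hdvd q))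
      obtain ⟨i, j, hop, hv, hm⟩ := hge.single p hp hpM hpN
      have h1 := hno p hp hp1 i j hv (hm 2 (hp2.trans (hdvd q)))
      have h2 := hpair q p hp hpd i j hop
      rcases h2 with h2 | h2
      · by_contra hcon
        refine h1 (Or.inr ⟨?_, ?_⟩)
        · rw [h2.1, h2.2]
          exact hne q
        · rw [fr_eq K h2.1, fr_eq K h2.2]
          exact (not_le.mp hcon).le
      · by_contra hcon
        refine h1 (Or.inr ⟨?_, ?_⟩)
        · rw [h2.1, h2.2]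
          exact (hne q).symm
        · rw [fr_eq K h2.1, fr_eq K h2.2, max_comm]
          exact (not_le.mp hcon).le
    · simp only [Sum.elim_inr] at hp2 ⊢
      have hpd : p ∣ (Y a).natAbs := (dvd_pow_self p two_ne_zero).trans hp2
      have hpN : p ∣ N := hpd.trans (hdvda a)
      have hpM := hge.big p hp hpH hpN
      have hp1 : (H : ℝ) ^ (1 - δ) < p := by
        by_contra hcon
        exact hge.sq p hp hpH (not_lt.mp hcon) (hp2.trans (hdvda a))
      obtain ⟨i, j, hop, hv, hm⟩ := hge.single p hp hpM hpN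
      have h1 := hno p hp hp1 i j hv (hm 2 (hp2.trans (hdvda a)))
      have h2 := hpaira a p hp hpM hpd i j hop
      by_contra hcon
      refine h1 (Or.inl ⟨h2.1.trans h2.2.symm, ?_⟩)
      rw [fr_eq K h2.1]
      exact (not_le.mp hcon).le
  · rintro (q | a)
    · exact hlowq q
    · exact hlowa a

end

/-- The stronger form of `NloStmt`. -/
def NlpStmt : Prop := ∀ (ι : Type) [Fintype ι] (K : ι → Type) [∀ a, Field (K a)]
  [∀ a, NumberField (K a)] (n : ℕ), Fintype.card (Emb K) = n → 3 ≤ n → ∀ ε : ℝ, 0 < ε →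
  ∃ η : ℝ, 0 < η ∧ ∃ C : ℝ, ∀ H : ℕ, 1 ≤ H →
    ({e : RR K | e ∈ Box K H ∧ ¬ (Function.Injective (cj K e) ∧ ∀ f : ℤ[X],
      f.map (Int.castRingHom ℂ) = ∏ i : Emb K, (X - Polynomial.C (cj K e i)) →
        (H : ℝ) ^ (dd K / 2 - ε) ≤ (Helper5Frey.Nstar f : ℝ))}.ncard : ℝ) ≤
      C * (H : ℝ) ^ ((n : ℝ) - η)

theorem nlp (hval : ValStmt) (hvzi : VziStmt) (hgen : GenStmt) (hfph : FphStmt)
    (hexc : ExcStmt) (hex2 : Ex2Stmt) (hlow : LowStmt) (hcpz : CpzStmt)
    (hnod : NodStmt) (hhgt : HgtStmt) (hbox : BoxStmt) : NlpStmt := by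
  intro ι _ K _ _ n hcard hn ε hε
  obtain ⟨B, hB⟩ := hval
  obtain ⟨v, hv⟩ := hgen ι K
  have en : Fin n ≃ Emb K := (Fintype.equivFinOfCardEq hcard).symm
  have hn3 : (3 : ℝ) ≤ n := by exact_mod_cast hn
  set δ : ℝ := min (1 / 16) (ε / (((n : ℝ) ^ 2 + n) * ((n : ℝ) ^ 2 + 17))) with hδdef
  have hδ : 0 < δ := lt_min (by norm_num) (by positivity)
  have hδ16 : δ ≤ 1 / 16 := min_le_left _ _
  have hδε : ((n : ℝ) ^ 2 + n) * (δ * (n : ℝ) ^ 2 + 16 * δ + δ) ≤ ε := by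
    have h1 : δ ≤ ε / (((n : ℝ) ^ 2 + n) * ((n : ℝ) ^ 2 + 17)) := min_le_right _ _
    rw [le_div_iff₀ (by positivity)] at h1
    linarith
  obtain ⟨η₁, hη₁, C₁, h₁⟩ := hexc ι K n en B v δ (16 * δ) hB (by omega) hv hδ le_rfl
    (by linarith)
  obtain ⟨η₂, hη₂, C₂, h₂⟩ := hex2 ι K n B v δ hB hcard hv hδ (by linarith)
  refine ⟨min η₁ η₂, lt_min hη₁ hη₂, |C₁| + |C₂|, ?_⟩
  intro H hH
  have hH1 : (1 : ℝ) ≤ H := by exact_mod_cast hH
  have hfinB : (Box K H).Finite := ((hbox ι K).1 H (by linarith)).1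
  set S₁ : Set (RR K) := {e | e ∈ Box K H ∧ ¬ ∃ N M : ℕ, GE K n en B δ (16 * δ) H v e N M}
    with hS₁
  set S₂ : Set (RR K) := {e | e ∈ Box K H ∧ ∃ p : ℕ, p.Prime ∧ (H : ℝ) ^ (1 - δ) < p ∧
    ∃ i j : Emb K, (B p).valuation (cj K v i - cj K v j) = 1 ∧
      (B p).valuation (cj K e i - cj K e j) ≤ (B p).valuation (p : ℂ) ^ 2 ∧
      ((i.1 = j.1 ∧ (p : ℝ) ≤ (H : ℝ) ^ ((finrank ℚ (K i.1) : ℝ) / 2 - δ)) ∨
        (i.1 ≠ j.1 ∧ (p : ℝ) ≤
          (H : ℝ) ^ ((max (finrank ℚ (K i.1)) (finrank ℚ (K j.1)) : ℕ) - δ : ℝ)))} with hS₂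
  have hsub : {e : RR K | e ∈ Box K H ∧ ¬ (Function.Injective (cj K e) ∧ ∀ f : ℤ[X],
      f.map (Int.castRingHom ℂ) = ∏ i : Emb K, (X - Polynomial.C (cj K e i)) →
        (H : ℝ) ^ (dd K / 2 - ε) ≤ (Helper5Frey.Nstar f : ℝ))} ⊆ S₁ ∪ S₂ := by
    intro e he
    by_contra hcon
    rw [Set.mem_union, not_or] at hcon
    obtain ⟨hc1, hc2⟩ := hcon
    have hex : ∃ N M : ℕ, GE K n en B δ (16 * δ) H v e N M := by
      by_contra hh
      exact hc1 ⟨he.1, hh⟩
    obtain ⟨N, M, hge⟩ := hex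
    have hno : NoSq K B v δ H e := by
      intro p hp hp1 i j hvij heij hor
      exact hc2 ⟨he.1, p, hp, hp1, i, j, hvij, heij, hor⟩
    apply he.2
    have hinj : Function.Injective (cj K e) := by
      intro i j hij
      by_contra hne
      have h3 := hge.low i j hne
      rw [hij, sub_self, norm_zero] at h3
      have h4 : (0 : ℝ) < (H : ℝ) ^ (1 - δ) := by positivity
      linarith
    refine ⟨hinj, fun f hf => ?_⟩
    have h5 := nstar_ge K hnod hhgt hn en B hB v e hinj δ (16 * δ) H N M hge f hf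
    have h6 : ((∏ p ∈ N.primeFactors.filter (fun p => ¬ p ∣ M), p : ℕ) : ℝ) ≤
        (Helper5Frey.Nstar f : ℝ) := by exact_mod_cast h5
    refine le_trans ?_ h6
    exact low_all K hlow hcpz hvzi hfph en B hB v e hv δ (16 * δ) ε H hH hδ (by linarith)
      (by linarith) N M hge hno hδε
  have hfinS : (S₁ ∪ S₂).Finite := hfinB.subset (Set.union_subset (fun e he => he.1)
    (fun e he => he.1))
  have hcount : ({e : RR K | e ∈ Box K H ∧ ¬ (Function.Injective (cj K e) ∧ ∀ f : ℤ[X],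
      f.map (Int.castRingHom ℂ) = ∏ i : Emb K, (X - Polynomial.C (cj K e i)) →
        (H : ℝ) ^ (dd K / 2 - ε) ≤ (Helper5Frey.Nstar f : ℝ))}.ncard : ℝ) ≤
      (S₁.ncard : ℝ) + (S₂.ncard : ℝ) := by
    exact_mod_cast (Set.ncard_le_ncard hsub hfinS).trans (Set.ncard_union_le _ _)
  have hb1 : (S₁.ncard : ℝ) ≤ |C₁| * (H : ℝ) ^ ((n : ℝ) - min η₁ η₂) := by
    refine (h₁ H hH).trans ?_
    refine mul_le_mul (le_abs_self _) ?_ (by positivity) (abs_nonneg _)
    refine Real.rpow_le_rpow_of_exponent_le hH1 ?_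
    have := min_le_left η₁ η₂
    linarith
  have hb2 : (S₂.ncard : ℝ) ≤ |C₂| * (H : ℝ) ^ ((n : ℝ) - min η₁ η₂) := by
    refine (h₂ H hH).trans ?_
    refine mul_le_mul (le_abs_self _) ?_ (by positivity) (abs_nonneg _)
    refine Real.rpow_le_rpow_of_exponent_le hH1 ?_
    have := min_le_right η₁ η₂
    linarith
  calc _ ≤ _ := hcount
    _ ≤ |C₁| * (H : ℝ) ^ ((n : ℝ) - min η₁ η₂) + |C₂| * (H : ℝ) ^ ((n : ℝ) - min η₁ η₂) :=
        add_le_add hb1 hb2
    _ = _ := by ring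

/-- The stronger form of `FinStmt`. -/
def FipStmt : Prop := ∀ n : ℕ, 3 ≤ n → ∃ C₀ : ℝ, ∀ κ : ℝ,
  ∀ (ι : Type) [Fintype ι] (K : ι → Type) [∀ a, Field (K a)] [∀ a, NumberField (K a)],
  ∑ a, finrank ℚ (K a) = n →
  (((n - 1) / 2 : ℕ) : ℝ) * (n - ((n - 1) / 2 : ℕ) - 1) < κ * dd K →
  (∃ c : ℝ, 0 < c ∧ ∀ H : ℕ, 1 ≤ H → c * (H : ℝ) ^ n ≤ (Box K H).ncard) ∧
  ∃ η : ℝ, 0 < η ∧ ∃ C : ℝ, ∀ H : ℕ, 1 ≤ H →
    ({e : RR K | e ∈ Box K H ∧ ¬ Holds K n κ C₀ e}.ncard : ℝ) ≤ C * (H : ℝ) ^ ((n : ℝ) - η)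

theorem dd_nonneg {ι : Type} [Fintype ι] (K : ι → Type) [∀ a, Field (K a)]
    [∀ a, NumberField (K a)] : 0 ≤ dd K := by
  unfold dd
  rw [sub_nonneg]
  have h1 : (Finset.univ.filter fun a => finrank ℚ (K a) = 1).card ≤
      ∑ a, ∑ b, max (finrank ℚ (K a)) (finrank ℚ (K b)) := by
    refine le_trans (Finset.card_filter_le _ _) ?_
    rw [Finset.card_eq_sum_ones]
    refine Finset.sum_le_sum fun a _ => ?_
    refine le_trans ?_ (Finset.single_le_sum (f := fun b => max (finrank ℚ (K a))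
      (finrank ℚ (K b))) (fun _ _ => Nat.zero_le _) (Finset.mem_univ a))
    exact le_max_of_le_left finrank_pos
  exact_mod_cast h1

theorem fip (hnlp : NlpStmt) (hfpo : FpoStmt) (hhgt : HgtStmt) (hbox : BoxStmt) : FipStmt := by
  intro n hn
  obtain ⟨C₀, hC₀⟩ := hhgt n hn
  refine ⟨C₀, ?_⟩
  intro κ ι _ K _ _ hsum hκ
  have hcard : Fintype.card (Emb K) = n := by
    rw [← hsum, Fintype.card_sigma]
    exact Finset.sum_congr rfl fun a _ => Embeddings.card (K a) ℂ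
  refine ⟨?_, ?_⟩
  · obtain ⟨c, hc, hcb⟩ := (hbox ι K).2
    refine ⟨c, hc, fun H hH => ?_⟩
    have h1 := hcb H (by exact_mod_cast hH)
    rwa [hcard] at h1
  · set g : ℕ := (n - 1) / 2 with hg
    have hg1 : 1 ≤ g := by omega
    have hgn : g + 2 ≤ n := by omega
    have hn0 : (0 : ℝ) < n := by
      have : 0 < n := by omega
      exact_mod_cast this
    have hgR : (1 : ℝ) ≤ g := by exact_mod_cast hg1
    have hgnR : (g : ℝ) + 2 ≤ n := by exact_mod_cast hgn
    have hE : 0 < (g : ℝ) * ((n : ℝ) - g - 1) := mul_pos (by linarith) (by linarith)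
    have hd0 := dd_nonneg K
    have hκ0 : 0 < κ := by
      by_contra hcon
      have := mul_nonpos_of_nonpos_of_nonneg (not_lt.mp hcon) hd0
      linarith
    set ε : ℝ := (κ * dd K - (g : ℝ) * ((n : ℝ) - g - 1)) / (2 * κ) with hεdef
    have hε : 0 < ε := div_pos (by linarith) (by linarith)
    have hεκ : κ * (dd K / 2 - ε) = (g : ℝ) * ((n : ℝ) - g - 1) / 2 := by
      rw [hεdef]
      field_simp
      ring
    obtain ⟨η, hη, C, hC⟩ := hnlp ι K n hcard hn ε hε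
    refine ⟨η, hη, C, fun H hH => ?_⟩
    refine le_trans ?_ (hC H hH)
    have hH1 : (1 : ℝ) ≤ H := by exact_mod_cast hH
    have hH0 : (0 : ℝ) < H := by linarith
    have hfinB : (Box K H).Finite := ((hbox ι K).1 H (by linarith)).1
    refine Nat.cast_le.mpr (Set.ncard_le_ncard ?_ (hfinB.subset fun e he => he.1))
    rintro e ⟨heB, hen⟩
    refine ⟨heB, ?_⟩
    rintro ⟨hinj, hall⟩
    apply hen
    obtain ⟨f, hf⟩ := hfpo ι K e
    refine ⟨f, hf, ?_⟩
    have h1 := hall f hf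
    obtain ⟨h2, _, h3⟩ := hC₀ (Emb K) (cj K e) f hcard hinj hf
    apply h2
    refine (h3 H hH1 heB).trans ?_
    have h4 : (dd K / 2 - ε) * Real.log H ≤ Real.log (Helper5Frey.Nstar f) := by
      rw [← Real.log_rpow hH0]
      exact Real.log_le_log (by positivity) h1
    have h5 := mul_le_mul_of_nonneg_left h4 hκ0.le
    rw [← mul_assoc, hεκ] at h5
    linarith

end Pool.Agent.FK.H13
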