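import Pool.Agent.Helper10_FK.Lin
import Pool.Agent.Helper11_FK.L1
import Pool.Agent.Helper13_FK.Nlp
import Pool.Agent.Helper13_FK.Fin
import Pool.Agent.Helper17_FK.Gen
import Pool.Agent.Helper17_FK.Nod
import Pool.Agent.Helper17_FK.Val
import Pool.Agent.Helper19_FK.Ex2
import Pool.Agent.Helper25_FK.Lb
import Pool.Agent.Helper27_FK.Zer
import Pool.Agent.Helper29_FK.Lc
import Pool.Agent.Helper40_FK.Exc
import Pool.Agent.Helper43_FK.BOX
import Pool.Agent.Helper43_FK.IDL
import Pool.Agent.Helper43_FK.OWN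
import Pool.Agent.Helper52_FK.Bez
import Pool.Agent.Helper52_FK.Crs
import Pool.Agent.Helper52_FK.Exp
import Pool.Agent.Helper52_FK.Sin
import Pool.Agent.Helper52_FK.Vzi
import Pool.Agent.Helper57_FK.Avg
import Pool.Agent.Helper57_FK.Le
import Pool.Agent.Helper77_FK.FPH
import Pool.Agent.Helper77_FK.FPO
import Pool.Agent.Helper79_FK.Hgt
import Pool.Agent.Helper79_FK.L2
import Pool.Agent.Helper90_FK.La
import Pool.Agent.Helper91_FK.Ld
import Pool.Agent.Helper91_FK.Low

/-!
# Squad FK: everything together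
-/

namespace Pool.Agent.FK.H13

theorem exc_all : ExcStmt :=
  H40.exc H77.fph
    (H10.lin (H90.la H11.l1) (H25.lb H79.l2) (H29.lc H11.l1) (H91.ld H79.l2))
    H57.le H52.bez (H57.avg H43.box) (H27.zer (H57.avg H43.box) H43.box) H52.sin H43.box

theorem ex2_all : Ex2Stmt :=
  H19.ex2 (H43.own H52.vzi) (H52.crs (H43.idl H52.vzi) H43.box) H43.box

theorem nlp_all : NlpStmt :=
  nlp H17.val H52.vzi H17.gen H77.fph exc_all ex2_all H91.low H77.cpz H17.nod H79.hgt H43.box

theorem fip_all : FipStmt := fip nlp_all H77.fpo H79.hgt H43.box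

theorem fin_all : FinStmt :=
  fin (nlo H17.val H52.vzi H17.gen H77.fph exc_all ex2_all H91.low H77.cpz H52.exp H17.nod
    H79.hgt H43.box) H77.fpo H79.hgt H43.box

end Pool.Agent.FK.H13
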