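import Pool.Agent.Helper13_FK.Nlo2

/-!
# Squad FK, module NLO: the lower bound of the product of the node primes
-/

namespace Pool.Agent.FK.H13

open NumberField Polynomial Module

section

variable {ι : Type} [Fintype ι] (K : ι → Type) [∀ a, Field (K a)] [∀ a, NumberField (K a)]

theorem sum_finrank {n : ℕ} (h : Fintype.card (Emb K) = n) : ∑ a, finrank ℚ (K a) = n := by
  rw [← h, Fintype.card_sigma]
  exact Finset.sum_congr rfl fun a _ => (Embeddings.card (K a) ℂ).symm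

omit [Fintype ι] in
theorem fr_eq {a b : ι} (h : a = b) : finrank ℚ (K a) = finrank ℚ (K b) := by
  subst h
  rfl

theorem low_cross (hlow : LowStmt) (hcpz : CpzStmt) (hexp : ExpStmt) (hvzi : VziStmt)
    (hfph : FphStmt) {n : ℕ} (en : Fin n ≃ Emb K) (B : ℕ → ValuationSubring ℂ) (hB : GoodB B)
    (v e : RR K) (δ δ' ε : ℝ) (H : ℕ) (hH : 1 ≤ H) (hδ : 0 < δ) (hδ1 : δ < 1) (hδ' : 0 < δ')
    (N M : ℕ) (hge : GE K n en B δ δ' H v e N M) (hno : NoSq K B v δ H e)
    (hr : 2 ≤ Fintype.card ι)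
    (hε : (Fintype.card ι : ℝ) ^ 2 * (δ * (n : ℝ) ^ 2 + δ' + δ) ≤ ε) :
    (H : ℝ) ^ ((n : ℝ) / 2 - ε) ≤
      ((∏ p ∈ N.primeFactors.filter (fun p => ¬ p ∣ M), p : ℕ) : ℝ) := by
  classical
  let _ : LinearOrder ι := LinearOrder.lift' (Fintype.equivFin ι) (Fintype.equivFin ι).injective
  have hH1 : (1 : ℝ) ≤ H := by exact_mod_cast hH
  have hH0 : (0 : ℝ) < H := by linarith
  have hcard : Fintype.card (Emb K) = n := by rw [← Fintype.card_congr en, Fintype.card_fin]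
  have hsum := sum_finrank K hcard
  have hle : ∀ a, finrank ℚ (K a) ≤ n := fun a => by
    rw [← hsum]
    exact Finset.single_le_sum (f := fun a => finrank ℚ (K a)) (fun _ _ => Nat.zero_le _)
      (Finset.mem_univ a)
  have hpos : ∀ a, 1 ≤ finrank ℚ (K a) := fun a => finrank_pos
  choose Z hZ using fun q : {q : ι × ι // q.1 < q.2} =>
    hcpz (K q.1.1) (K q.1.2) (e q.1.1) (e q.1.2)
  have hZ' : ∀ q : {q : ι × ι // q.1 < q.2}, ∏ σ : K q.1.1 →+* ℂ, ∏ τ : K q.1.2 →+* ℂ,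
      (cj K e ⟨q.1.1, σ⟩ - cj K e ⟨q.1.2, τ⟩) = (Z q : ℂ) := hZ
  have hne : ∀ q : {q : ι × ι // q.1 < q.2}, q.1.1 ≠ q.1.2 := fun q => q.2.ne
  have hlowq : ∀ q : {q : ι × ι // q.1 < q.2},
      (H : ℝ) ^ ((1 - δ) * ((finrank ℚ (K q.1.1) : ℝ) * finrank ℚ (K q.1.2))) ≤
        ((Z q).natAbs : ℝ) := by
    intro q
    refine cross_low K e H δ hH1 q.1.1 q.1.2 (Z q) (hZ' q) fun σ τ => hge.low _ _ ?_
    exact fun h => hne q (congrArg Sigma.fst h)
  have hZ0 : ∀ q, Z q ≠ 0 := by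
    intro q h0
    have h1 := hlowq q
    rw [h0] at h1
    have h2 : (0 : ℝ) < (H : ℝ) ^ ((1 - δ) * ((finrank ℚ (K q.1.1) : ℝ) *
      finrank ℚ (K q.1.2))) := by positivity
    simp only [Int.natAbs_zero, Nat.cast_zero] at h1
    linarith
  obtain ⟨k, hk⟩ := exists_k K hfph en e v
  have hNk := natAbs_eq K en e v k N hk hge.eqN
  have hdvd : ∀ q, (Z q).natAbs ∣ N := by
    intro q
    rw [hNk]
    exact Int.natAbs_dvd_natAbs.mpr (cross_dvd K en e v k (Z q) hk q.1.1 q.1.2 (hne q) (hZ' q)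
      (hZ0 q))
  have hpair : ∀ (q : {q : ι × ι // q.1 < q.2}) (p : ℕ), p.Prime → p ∣ (Z q).natAbs →
      ∀ i j, OP (B p) (cj K e) i j →
      (i.1 = q.1.1 ∧ j.1 = q.1.2) ∨ (i.1 = q.1.2 ∧ j.1 = q.1.1) := by
    intro q p hp hd i j hop
    obtain ⟨σ, τ, hστ⟩ := cross_val K hvzi B hB e q.1.1 q.1.2 (Z q) (hZ' q) p hp
      (Int.natCast_dvd.mpr hd)
    exact op_cross K hop (hne q) hστ
  have hmain := hlow {q : ι × ι // q.1 < q.2} N M (fun q => (Z q).natAbs) H δ δ'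
    (fun q => ((max (finrank ℚ (K q.1.1)) (finrank ℚ (K q.1.2)) : ℕ) : ℝ) - δ)
    (fun q => (1 - δ) * ((finrank ℚ (K q.1.1) : ℝ) * finrank ℚ (K q.1.2)))
    hH1 hδ hδ' hge.pos hdvd ?_ hge.big hge.tt ?_ hlowq
  · refine le_trans ?_ hmain
    set c : ℝ := δ * (n : ℝ) ^ 2 + δ' + δ with hc
    have hc0 : 0 ≤ c := by positivity
    have h1 : ∏ q : {q : ι × ι // q.1 < q.2}, (H : ℝ) ^
        (((max (finrank ℚ (K q.1.1)) (finrank ℚ (K q.1.2)) : ℕ) : ℝ) - c) ≤
        ∏ q : {q : ι × ι // q.1 < q.2},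
        min ((H : ℝ) ^ (((max (finrank ℚ (K q.1.1)) (finrank ℚ (K q.1.2)) : ℕ) : ℝ) - δ))
          ((H : ℝ) ^ ((1 - δ) * ((finrank ℚ (K q.1.1) : ℝ) * finrank ℚ (K q.1.2)) - δ')) := by
      refine Finset.prod_le_prod (fun q _ => by positivity) fun q _ => ?_
      have ha := hpos q.1.1
      have hb := hpos q.1.2
      have ha' := hle q.1.1
      have hb' := hle q.1.2
      have hmax : max (finrank ℚ (K q.1.1)) (finrank ℚ (K q.1.2)) ≤
          finrank ℚ (K q.1.1) * finrank ℚ (K q.1.2) := by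
        refine max_le ?_ ?_
        · exact Nat.le_mul_of_pos_right _ hb
        · exact Nat.le_mul_of_pos_left _ ha
      have hprod : finrank ℚ (K q.1.1) * finrank ℚ (K q.1.2) ≤ n ^ 2 := by
        rw [sq]
        exact Nat.mul_le_mul ha' hb'
      have hmaxR : ((max (finrank ℚ (K q.1.1)) (finrank ℚ (K q.1.2)) : ℕ) : ℝ) ≤
          (finrank ℚ (K q.1.1) : ℝ) * finrank ℚ (K q.1.2) := by exact_mod_cast hmax
      have hprodR : (finrank ℚ (K q.1.1) : ℝ) * finrank ℚ (K q.1.2) ≤ (n : ℝ) ^ 2 := by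
        exact_mod_cast hprod
      refine le_min ?_ ?_
      · refine Real.rpow_le_rpow_of_exponent_le hH1 ?_
        have : 0 ≤ δ * (n : ℝ) ^ 2 := by positivity
        linarith
      · refine Real.rpow_le_rpow_of_exponent_le hH1 ?_
        have : δ * ((finrank ℚ (K q.1.1) : ℝ) * finrank ℚ (K q.1.2)) ≤ δ * (n : ℝ) ^ 2 :=
          mul_le_mul_of_nonneg_left hprodR hδ.le
        linarith
    refine le_trans ?_ h1
    rw [rpow_prod H hH0, Finset.sum_sub_distrib, Finset.sum_const, nsmul_eq_mul]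
    refine Real.rpow_le_rpow_of_exponent_le hH1 ?_
    have h2 := hexp ι (fun a => finrank ℚ (K a)) hr
    rw [hsum] at h2
    have h3 : ((Finset.univ : Finset {q : ι × ι // q.1 < q.2}).card : ℝ) ≤
        (Fintype.card ι : ℝ) ^ 2 := by
      rw [Finset.card_univ]
      have : Fintype.card {q : ι × ι // q.1 < q.2} ≤ Fintype.card (ι × ι) :=
        Fintype.card_subtype_le _
      rw [Fintype.card_prod, ← sq] at this
      exact_mod_cast this
    have h4 := mul_le_mul_of_nonneg_right h3 hc0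
    linarith
  · intro p hp hpM q q' hq hq'
    obtain ⟨i, j, hop, _⟩ := hge.single p hp hpM (hq.trans (hdvd q))
    have h1 := hpair q p hp hq i j hop
    have h2 := hpair q' p hp hq' i j hop
    have hq2 := q.2
    have hq2' := q'.2
    apply Subtype.ext
    apply Prod.ext
    · rcases h1 with h1 | h1 <;> rcases h2 with h2 | h2
      · rw [← h1.1, ← h2.1]
      · exfalso
        rw [← h1.1, ← h1.2] at hq2
        rw [← h2.1, ← h2.2] at hq2'
        exact lt_asymm hq2 hq2'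
      · exfalso
        rw [← h1.1, ← h1.2] at hq2
        rw [← h2.1, ← h2.2] at hq2'
        exact lt_asymm hq2 hq2'
      · rw [← h1.2, ← h2.2]
    · rcases h1 with h1 | h1 <;> rcases h2 with h2 | h2
      · rw [← h1.2, ← h2.2]
      · exfalso
        rw [← h1.1, ← h1.2] at hq2
        rw [← h2.1, ← h2.2] at hq2'
        exact lt_asymm hq2 hq2'
      · exfalso
        rw [← h1.1, ← h1.2] at hq2
        rw [← h2.1, ← h2.2] at hq2'
        exact lt_asymm hq2 hq2'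
      · rw [← h1.1, ← h2.1]
  · intro q p hp hpH hp2
    have hpd : p ∣ (Z q).natAbs := (dvd_pow_self p two_ne_zero).trans hp2
    have hpN : p ∣ N := hpd.trans (hdvd q)
    have hpM := hge.big p hp hpH hpN
    have hp1 : (H : ℝ) ^ (1 - δ) < p := by
      by_contra hcon
      exact hge.sq p hp hpH (not_lt.mp hcon) (hp2.trans (hdvd q))
    obtain ⟨i, j, hop, hv, hm⟩ := hge.single p hp hpM hpN
    have h1 := hno p hp hp1 i j hv (hm 2 (hp2.trans (hdvd q)))
    have h2 := hpair q p hp hpd i j hop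
    rcases h2 with h2 | h2
    · by_contra hcon
      refine h1 (Or.inr ⟨?_, ?_⟩)
      · rw [h2.1, h2.2]
        exact hne q
      · rw [fr_eq K h2.1, fr_eq K h2.2]
        exact (not_le.mp hcon).le
    · by_contra hcon
      refine h1 (Or.inr ⟨?_, ?_⟩)
      · rw [h2.1, h2.2]
        exact (hne q).symm
      · rw [fr_eq K h2.1, fr_eq K h2.2, max_comm]
        exact (not_le.mp hcon).le

theorem low_one (hlow : LowStmt) (hfph : FphStmt) {n : ℕ} (hn : 3 ≤ n) (en : Fin n ≃ Emb K)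
    (B : ℕ → ValuationSubring ℂ) (v e : RR K) (hv : Function.Injective (cj K v))
    (δ δ' ε : ℝ) (H : ℕ) (hH : 1 ≤ H) (hδ : 0 < δ) (hδ1 : δ < 1) (hδ' : 0 < δ')
    (N M : ℕ) (hge : GE K n en B δ δ' H v e N M) (hno : NoSq K B v δ H e)
    (hr : Fintype.card ι = 1)
    (hε : δ * (n : ℝ) ^ 2 + δ' + δ ≤ ε) :
    (H : ℝ) ^ ((n : ℝ) / 2 - ε) ≤
      ((∏ p ∈ N.primeFactors.filter (fun p => ¬ p ∣ M), p : ℕ) : ℝ) := by
  have hH1 : (1 : ℝ) ≤ H := by exact_mod_cast hH
  have hH0 : (0 : ℝ) < H := by linarith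
  have hn3 : (3 : ℝ) ≤ n := by exact_mod_cast hn
  have hcard : Fintype.card (Emb K) = n := by rw [← Fintype.card_congr en, Fintype.card_fin]
  have hsum := sum_finrank K hcard
  have : Subsingleton ι := Fintype.card_le_one_iff_subsingleton.mp hr.le
  have hfin : ∀ a, finrank ℚ (K a) = n := fun a => by
    rw [← hsum, Fintype.sum_subsingleton _ a]
  have hNlow : (H : ℝ) ^ ((1 - δ) * ((n : ℝ) - 1)) ≤ N := by
    rw [hge.eqN]
    have hV : 1 ≤ ∏ i, ∏ j ∈ Finset.Ioi i, ‖cj K v (en j) - cj K v (en i)‖ := by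
      obtain ⟨k, hk⟩ := exists_k K hfph en v v
      have h1 : ‖(k : ℂ)‖ = (∏ i, ∏ j ∈ Finset.Ioi i, ‖cj K v (en j) - cj K v (en i)‖) ^ 2 := by
        rw [hk, norm_prod, ← Finset.prod_pow]
        refine Finset.prod_congr rfl fun i _ => ?_
        rw [norm_prod, ← Finset.prod_pow]
        refine Finset.prod_congr rfl fun j _ => ?_
        rw [norm_mul, sq]
      have hpos : 0 < ∏ i, ∏ j ∈ Finset.Ioi i, ‖cj K v (en j) - cj K v (en i)‖ := by
        refine Finset.prod_pos fun i _ => Finset.prod_pos fun j hj => ?_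
        rw [norm_pos_iff, sub_ne_zero]
        intro h
        exact (Finset.mem_Ioi.mp hj).ne' (en.injective (hv h))
      have hk0 : k ≠ 0 := by
        rintro rfl
        rw [Int.cast_zero, norm_zero] at h1
        exact (pow_pos hpos 2).ne h1
      have hk1 : 1 ≤ ‖(k : ℂ)‖ := by
        rw [Complex.norm_intCast]
        exact_mod_cast Int.one_le_abs hk0
      rw [h1] at hk1
      exact (one_le_sq_iff₀ hpos.le).mp hk1
    have hE : (H : ℝ) ^ ((1 - δ) * ((n : ℝ) - 1)) ≤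
        ∏ i, ∏ j ∈ Finset.Ioi i, ‖cj K e (en j) - cj K e (en i)‖ := by
      have h1 : ∏ i : Fin n, ∏ j ∈ Finset.Ioi i, (H : ℝ) ^ (1 - δ) ≤
          ∏ i, ∏ j ∈ Finset.Ioi i, ‖cj K e (en j) - cj K e (en i)‖ := by
        refine Finset.prod_le_prod (fun i _ => Finset.prod_nonneg fun j _ => by positivity)
          fun i _ => Finset.prod_le_prod (fun j _ => by positivity) fun j hj => ?_
        exact hge.low _ _ (fun h => (Finset.mem_Ioi.mp hj).ne' (en.injective h))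
      refine le_trans ?_ h1
      simp only [Finset.prod_const]
      rw [Finset.prod_pow_eq_pow_sum]
      have h2 : n - 1 ≤ ∑ i : Fin n, (Finset.Ioi i).card := by
        have h3 := Finset.single_le_sum (f := fun i : Fin n => (Finset.Ioi i).card)
          (fun _ _ => Nat.zero_le _) (Finset.mem_univ (⟨0, by omega⟩ : Fin n))
        simp only [Fin.card_Ioi, Nat.sub_zero] at h3
        simpa using h3
      have h4 : (1 : ℝ) ≤ (H : ℝ) ^ (1 - δ) := Real.one_le_rpow hH1 (by linarith)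
      refine le_trans ?_ (pow_le_pow_right₀ h4 h2)
      rw [← Real.rpow_natCast, ← Real.rpow_mul hH0.le, Nat.cast_sub (by omega), Nat.cast_one]
    have h5 : ∏ i, ∏ j ∈ Finset.Ioi i, (‖cj K v (en j) - cj K v (en i)‖ *
        ‖cj K e (en j) - cj K e (en i)‖) =
        (∏ i, ∏ j ∈ Finset.Ioi i, ‖cj K v (en j) - cj K v (en i)‖) *
        ∏ i, ∏ j ∈ Finset.Ioi i, ‖cj K e (en j) - cj K e (en i)‖ := by
      rw [← Finset.prod_mul_distrib]
      exact Finset.prod_congr rfl fun i _ => Finset.prod_mul_distrib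
    rw [h5]
    have h6 : (0 : ℝ) ≤ (H : ℝ) ^ ((1 - δ) * ((n : ℝ) - 1)) := by positivity
    calc (H : ℝ) ^ ((1 - δ) * ((n : ℝ) - 1)) = 1 * (H : ℝ) ^ ((1 - δ) * ((n : ℝ) - 1)) := by
          rw [one_mul]
      _ ≤ _ := mul_le_mul hV hE h6 (le_trans zero_le_one hV)
  have hmain := hlow Unit N M (fun _ => N) H δ δ' (fun _ => (n : ℝ) / 2 - δ)
    (fun _ => (1 - δ) * ((n : ℝ) - 1)) hH1 hδ hδ' hge.pos (fun _ => dvd_rfl)
    (fun _ _ _ _ _ _ _ => rfl) hge.big hge.tt ?_ (fun _ => hNlow)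
  · refine le_trans ?_ hmain
    rw [Fintype.prod_unique]
    have h0 : 0 ≤ δ * (n : ℝ) ^ 2 := by positivity
    have h1 : δ * ((n : ℝ) - 1) ≤ δ * (n : ℝ) ^ 2 := by
      refine mul_le_mul_of_nonneg_left ?_ hδ.le
      nlinarith
    refine le_min ?_ ?_
    · refine Real.rpow_le_rpow_of_exponent_le hH1 ?_
      linarith
    · refine Real.rpow_le_rpow_of_exponent_le hH1 ?_
      linarith
  · intro _ p hp hpH hp2
    have hpN : p ∣ N := (dvd_pow_self p two_ne_zero).trans hp2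
    have hpM := hge.big p hp hpH hpN
    have hp1 : (H : ℝ) ^ (1 - δ) < p := by
      by_contra hcon
      exact hge.sq p hp hpH (not_lt.mp hcon) hp2
    obtain ⟨i, j, hop, hv, hm⟩ := hge.single p hp hpM hpN
    have h1 := hno p hp hp1 i j hv (hm 2 hp2)
    by_contra hcon
    refine h1 (Or.inl ⟨Subsingleton.elim _ _, ?_⟩)
    rw [hfin]
    exact (not_le.mp hcon).le

theorem nstar_ge (hnod : NodStmt) (hhgt : HgtStmt) {n : ℕ} (hn : 3 ≤ n) (en : Fin n ≃ Emb K)
    (B : ℕ → ValuationSubring ℂ) (hB : GoodB B) (v e : RR K) (hinj : Function.Injective (cj K e))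
    (δ δ' : ℝ) (H : ℕ) (N M : ℕ) (hge : GE K n en B δ δ' H v e N M) (f : ℤ[X])
    (hf : f.map (Int.castRingHom ℂ) = ∏ i : Emb K, (X - C (cj K e i))) :
    (∏ p ∈ N.primeFactors.filter (fun p => ¬ p ∣ M), p) ≤ Helper5Frey.Nstar f := by
  classical
  have hcard : Fintype.card (Emb K) = n := by rw [← Fintype.card_congr en, Fintype.card_fin]
  obtain ⟨C₀, hC⟩ := hhgt n hn
  have hfin := (hC (Emb K) (cj K e) f hcard hinj hf).2.1
  have h1 : Helper5Frey.Nstar f = ∏ p ∈ hfin.toFinset, p := by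
    unfold Helper5Frey.Nstar
    rw [finprod_mem_eq_finite_toFinset_prod _ hfin]
  rw [h1]
  have hprime : ∀ p ∈ hfin.toFinset, 0 < p := by
    intro p hp
    obtain ⟨hp', _⟩ := hfin.mem_toFinset.mp hp
    exact hp'.pos
  refine Nat.le_of_dvd (Finset.prod_pos hprime) (Finset.prod_dvd_prod_of_subset _ _ _ ?_)
  intro p hp
  rw [Finset.mem_filter] at hp
  have hpp := Nat.prime_of_mem_primeFactors hp.1
  have hpN := Nat.dvd_of_mem_primeFactors hp.1
  rw [hfin.mem_toFinset]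
  obtain ⟨i, j, hop, _⟩ := hge.single p hpp hp.2 hpN
  refine hnod B hB (Emb K) (cj K e) f (cj_int K e) hf p hpp ?_ ⟨i, j, hop⟩
  rintro rfl
  exact hp.2 hge.two

end

theorem nlo (hval : ValStmt) (hvzi : VziStmt) (hgen : GenStmt) (hfph : FphStmt)
    (hexc : ExcStmt) (hex2 : Ex2Stmt) (hlow : LowStmt) (hcpz : CpzStmt) (hexp : ExpStmt)
    (hnod : NodStmt) (hhgt : HgtStmt) (hbox : BoxStmt) : NloStmt := by
  intro ι _ K _ _ n hcard hn ε hε
  obtain ⟨B, hB⟩ := hval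
  obtain ⟨v, hv⟩ := hgen ι K
  have en : Fin n ≃ Emb K := (Fintype.equivFinOfCardEq hcard).symm
  have hn3 : (3 : ℝ) ≤ n := by exact_mod_cast hn
  set r : ℝ := (Fintype.card ι : ℝ) with hr
  have hr0 : 0 ≤ r := Nat.cast_nonneg _
  set δ : ℝ := min (1 / 16) (ε / ((r + 1) ^ 2 * ((n : ℝ) ^ 2 + 17))) with hδdef
  have hδ : 0 < δ := lt_min (by norm_num) (by positivity)
  have hδ16 : δ ≤ 1 / 16 := min_le_left _ _
  have hδε : (r + 1) ^ 2 * (δ * (n : ℝ) ^ 2 + 16 * δ + δ) ≤ ε := by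
    have h1 : δ ≤ ε / ((r + 1) ^ 2 * ((n : ℝ) ^ 2 + 17)) := min_le_right _ _
    rw [le_div_iff₀ (by positivity)] at h1
    linarith
  have hcpos : 0 ≤ δ * (n : ℝ) ^ 2 + 16 * δ + δ := by positivity
  obtain ⟨η₁, hη₁, C₁, h₁⟩ := hexc ι K n en B v δ (16 * δ) hB (by omega) hv hδ le_rfl
    (by linarith)
  obtain ⟨η₂, hη₂, C₂, h₂⟩ := hex2 ι K n B v δ hB hcard hv hδ (by linarith)
  refine ⟨min η₁ η₂, lt_min hη₁ hη₂, |C₁| + |C₂|, ?_⟩
  intro H hH
  have hH1 : (1 : ℝ) ≤ H := by exact_mod_cast hH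
  have hfinB : (Box K H).Finite := ((hbox ι K).1 H (by linarith)).1
  set S₁ : Set (RR K) := {e | e ∈ Box K H ∧ ¬ ∃ N M : ℕ, GE K n en B δ (16 * δ) H v e N M}
    with hS₁
  set S₂ : Set (RR K) := {e | e ∈ Box K H ∧ ∃ p : ℕ, p.Prime ∧ (H : ℝ) ^ (1 - δ) < p ∧
    ∃ i j : Emb K, (B p).valuation (cj K v i - cj K v j) = 1 ∧
      (B p).valuation (cj K e i - cj K e j) ≤ (B p).valuation (p : ℂ) ^ 2 ∧
      ((i.1 = j.1 ∧ (p : ℝ) ≤ (H : ℝ) ^ ((finrank ℚ (K i.1) : ℝ) / 2 - δ)) ∨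
        (i.1 ≠ j.1 ∧ (p : ℝ) ≤
          (H : ℝ) ^ ((max (finrank ℚ (K i.1)) (finrank ℚ (K j.1)) : ℕ) - δ : ℝ)))} with hS₂
  have hsub : {e : RR K | e ∈ Box K H ∧ ¬ (Function.Injective (cj K e) ∧ ∀ f : ℤ[X],
      f.map (Int.castRingHom ℂ) = ∏ i : Emb K, (X - Polynomial.C (cj K e i)) →
        (H : ℝ) ^ ((n : ℝ) / 2 - ε) ≤ (Helper5Frey.Nstar f : ℝ))} ⊆ S₁ ∪ S₂ := by
    intro e he
    by_contra hcon
    rw [Set.mem_union, not_or] at hcon
    obtain ⟨hc1, hc2⟩ := hcon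
    have hex : ∃ N M : ℕ, GE K n en B δ (16 * δ) H v e N M := by
      by_contra hh
      exact hc1 ⟨he.1, hh⟩
    obtain ⟨N, M, hge⟩ := hex
    have hno : NoSq K B v δ H e := by
      intro p hp hp1 i j hvij heij hor
      exact hc2 ⟨he.1, p, hp, hp1, i, j, hvij, heij, hor⟩
    apply he.2
    have hinj : Function.Injective (cj K e) := by
      intro i j hij
      by_contra hne
      have h3 := hge.low i j hne
      rw [hij, sub_self, norm_zero] at h3
      have h4 : (0 : ℝ) < (H : ℝ) ^ (1 - δ) := by positivity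
      linarith
    refine ⟨hinj, fun f hf => ?_⟩
    have h5 := nstar_ge K hnod hhgt hn en B hB v e hinj δ (16 * δ) H N M hge f hf
    have h6 : ((∏ p ∈ N.primeFactors.filter (fun p => ¬ p ∣ M), p : ℕ) : ℝ) ≤
        (Helper5Frey.Nstar f : ℝ) := by exact_mod_cast h5
    refine le_trans ?_ h6
    rcases lt_trichotomy (Fintype.card ι) 1 with h7 | h7 | h7
    · exfalso
      have h8 : Fintype.card ι = 0 := by omega
      have h9 : IsEmpty ι := Fintype.card_eq_zero_iff.mp h8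
      have h10 : IsEmpty (Emb K) := ⟨fun i => h9.elim i.1⟩
      rw [Fintype.card_eq_zero_iff.mpr h10] at hcard
      omega
    · refine low_one K hlow hfph hn en B v e hv δ (16 * δ) ε H hH hδ (by linarith) (by linarith)
        N M hge hno h7 ?_
      refine le_trans ?_ hδε
      have h8 : (1 : ℝ) ≤ (r + 1) ^ 2 := by nlinarith
      nlinarith
    · refine low_cross K hlow hcpz hexp hvzi hfph en B hB v e δ (16 * δ) ε H hH hδ (by linarith)
        (by linarith) N M hge hno h7 ?_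
      refine le_trans ?_ hδε
      refine mul_le_mul_of_nonneg_right ?_ hcpos
      rw [← hr]
      nlinarith
  have hfinS : (S₁ ∪ S₂).Finite := hfinB.subset (Set.union_subset (fun e he => he.1)
    (fun e he => he.1))
  have hcount : ({e : RR K | e ∈ Box K H ∧ ¬ (Function.Injective (cj K e) ∧ ∀ f : ℤ[X],
      f.map (Int.castRingHom ℂ) = ∏ i : Emb K, (X - Polynomial.C (cj K e i)) →
        (H : ℝ) ^ ((n : ℝ) / 2 - ε) ≤ (Helper5Frey.Nstar f : ℝ))}.ncard : ℝ) ≤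
      (S₁.ncard : ℝ) + (S₂.ncard : ℝ) := by
    exact_mod_cast (Set.ncard_le_ncard hsub hfinS).trans (Set.ncard_union_le _ _)
  have hb1 : (S₁.ncard : ℝ) ≤ |C₁| * (H : ℝ) ^ ((n : ℝ) - min η₁ η₂) := by
    refine (h₁ H hH).trans ?_
    refine mul_le_mul (le_abs_self _) ?_ (by positivity) (abs_nonneg _)
    refine Real.rpow_le_rpow_of_exponent_le hH1 ?_
    have := min_le_left η₁ η₂
    linarith
  have hb2 : (S₂.ncard : ℝ) ≤ |C₂| * (H : ℝ) ^ ((n : ℝ) - min η₁ η₂) := by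
    refine (h₂ H hH).trans ?_
    refine mul_le_mul (le_abs_self _) ?_ (by positivity) (abs_nonneg _)
    refine Real.rpow_le_rpow_of_exponent_le hH1 ?_
    have := min_le_right η₁ η₂
    linarith
  calc _ ≤ _ := hcount
    _ ≤ |C₁| * (H : ℝ) ^ ((n : ℝ) - min η₁ η₂) + |C₂| * (H : ℝ) ^ ((n : ℝ) - min η₁ η₂) :=
        add_le_add hb1 hb2
    _ = _ := by ring

end Pool.Agent.FK.H13
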