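import Pool.Agent.Helper13_FK.Stmts

/-!
# Squad FK, module NLO, part 1: the cross products divide the total product
-/

namespace Pool.Agent.FK.H13

open NumberField Polynomial Module

theorem int_dvd {x y : ℤ} (hx : x ≠ 0) {w : ℂ} (hw : IsIntegral ℤ w) (h : (y : ℂ) = x * w) :
    x ∣ y := by
  have hxc : (x : ℂ) ≠ 0 := by exact_mod_cast hx
  have hq : w = algebraMap ℚ ℂ ((y : ℚ) / x) := by
    have h1 : algebraMap ℚ ℂ ((y : ℚ) / x) = (y : ℂ) / x := by simp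
    rw [h1, h]
    field_simp
  rw [hq] at hw
  have h1 : IsIntegral ℤ ((y : ℚ) / x) :=
    (isIntegral_algebraMap_iff (algebraMap ℚ ℂ).injective).mp hw
  obtain ⟨k, hk⟩ := IsIntegrallyClosed.isIntegral_iff.mp h1
  refine ⟨k, ?_⟩
  have hxq : (x : ℚ) ≠ 0 := by exact_mod_cast hx
  have h2 : (k : ℚ) = (y : ℚ) / x := by simpa using hk
  rw [eq_div_iff hxq] at h2
  have h3 : (k * x : ℤ) = y := by exact_mod_cast h2
  rw [← h3, mul_comm]

theorem prod_pairs {n : ℕ} (g : Fin n → Fin n → ℂ) :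
    ∏ i, ∏ j, (if i = j then 1 else g i j) = ∏ i, ∏ j ∈ Finset.Ioi i, (g i j * g j i) := by
  have h1 : ∀ i j : Fin n, (if i = j then 1 else g i j) =
      (if i < j then g i j else 1) * (if j < i then g i j else 1) := by
    intro i j
    rcases lt_trichotomy i j with h | h | h
    · simp [h, h.ne, h.not_gt]
    · simp [h]
    · simp [h, h.ne', h.not_gt]
  have h2 : ∀ i : Fin n, ∏ j ∈ Finset.Ioi i, (g i j * g j i) =
      ∏ j, (if i < j then g i j * g j i else 1) := by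
    intro i
    rw [← Finset.filter_lt_eq_Ioi, Finset.prod_filter]
  simp only [h1, h2, Finset.prod_mul_distrib]
  rw [Finset.prod_comm (f := fun i j => if j < i then g i j else 1)]
  rw [← Finset.prod_mul_distrib]
  refine Finset.prod_congr rfl fun i _ => ?_
  rw [← Finset.prod_mul_distrib]
  refine Finset.prod_congr rfl fun j _ => ?_
  by_cases h : i < j
  · simp [h]
  · simp [h]

section

variable {ι : Type} [Fintype ι] (K : ι → Type) [∀ a, Field (K a)] [∀ a, NumberField (K a)]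

omit [Fintype ι] [∀ a, NumberField (K a)] in
theorem cj_int (e : RR K) (i : Emb K) : IsIntegral ℤ (cj K e i) := by
  have h : IsIntegral ℤ ((e i.1 : 𝓞 (K i.1)) : K i.1) := RingOfIntegers.isIntegral_coe _
  exact h.map (i.2 : K i.1 →+* ℂ).toIntAlgHom

open Classical in
theorem sq_eq {n : ℕ} (en : Fin n ≃ Emb K) (e v : RR K) (k : ℤ)
    (hk : (k : ℂ) = ∏ i, ∏ j ∈ Finset.Ioi i, ((cj K v (en j) - cj K v (en i)) *
      (cj K e (en j) - cj K e (en i)))) :
    (k : ℂ) ^ 2 = ∏ i : Emb K, ∏ j : Emb K,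
      (if i = j then 1 else (cj K v i - cj K v j) * (cj K e i - cj K e j)) := by
  have h1 : ∏ i : Emb K, ∏ j : Emb K,
      (if i = j then 1 else (cj K v i - cj K v j) * (cj K e i - cj K e j)) =
      ∏ i : Fin n, ∏ j : Fin n, (if i = j then 1 else
        (cj K v (en i) - cj K v (en j)) * (cj K e (en i) - cj K e (en j))) := by
    rw [← Equiv.prod_comp en]
    refine Finset.prod_congr rfl fun i _ => ?_
    rw [← Equiv.prod_comp en]
    refine Finset.prod_congr rfl fun j _ => ?_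
    simp only [EmbeddingLike.apply_eq_iff_eq]
  rw [h1, prod_pairs (fun i j => (cj K v (en i) - cj K v (en j)) *
    (cj K e (en i) - cj K e (en j))), hk, ← Finset.prod_pow]
  refine Finset.prod_congr rfl fun i _ => ?_
  rw [← Finset.prod_pow]
  refine Finset.prod_congr rfl fun j _ => ?_
  ring

theorem cross_dvd {n : ℕ} (en : Fin n ≃ Emb K) (e v : RR K) (k Z : ℤ)
    (hk : (k : ℂ) = ∏ i, ∏ j ∈ Finset.Ioi i, ((cj K v (en j) - cj K v (en i)) *
      (cj K e (en j) - cj K e (en i)))) (a b : ι) (hab : a ≠ b)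
    (hZ : ∏ σ : K a →+* ℂ, ∏ τ : K b →+* ℂ, (cj K e ⟨a, σ⟩ - cj K e ⟨b, τ⟩) = (Z : ℂ))
    (hZ0 : Z ≠ 0) : Z ∣ k := by
  classical
  have h1 := sq_eq K en e v k hk
  set G : Emb K → Emb K → ℂ := fun i j =>
    (if i = j then 1 else (cj K v i - cj K v j) * (cj K e i - cj K e j)) with hG
  have hGint : ∀ i j, IsIntegral ℤ (G i j) := by
    intro i j
    simp only [hG]
    split_ifs
    · exact isIntegral_one
    · exact ((cj_int K v i).sub (cj_int K v j)).mul ((cj_int K e i).sub (cj_int K e j))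
  let F : ι × ι → ℂ := fun x => ∏ σ : K x.1 →+* ℂ, ∏ τ : K x.2 →+* ℂ, G ⟨x.1, σ⟩ ⟨x.2, τ⟩
  have hFint : ∀ x, IsIntegral ℤ (F x) := fun x =>
    IsIntegral.prod _ fun σ _ => IsIntegral.prod _ fun τ _ => hGint _ _
  have h2 : ∏ i : Emb K, ∏ j : Emb K, G i j = ∏ x : ι × ι, F x := by
    rw [Fintype.prod_sigma, Fintype.prod_prod_type]
    refine Finset.prod_congr rfl fun a _ => ?_
    have h6 : ∏ b : ι, F (a, b) = ∏ σ : K a →+* ℂ, ∏ b : ι, ∏ τ : K b →+* ℂ,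
        G ⟨a, σ⟩ ⟨b, τ⟩ :=
      Finset.prod_comm (s := Finset.univ) (t := Finset.univ)
        (f := fun (b : ι) (σ : K a →+* ℂ) => ∏ τ : K b →+* ℂ, G ⟨a, σ⟩ ⟨b, τ⟩)
    rw [h6]
    refine Finset.prod_congr rfl fun σ _ => ?_
    rw [Fintype.prod_sigma]
  have hFab : ∀ a b : ι, a ≠ b → F (a, b) =
      (∏ σ : K a →+* ℂ, ∏ τ : K b →+* ℂ, (cj K v ⟨a, σ⟩ - cj K v ⟨b, τ⟩)) *
      ∏ σ : K a →+* ℂ, ∏ τ : K b →+* ℂ, (cj K e ⟨a, σ⟩ - cj K e ⟨b, τ⟩) := by
    intro a b hab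
    simp only [F]
    rw [← Finset.prod_mul_distrib]
    refine Finset.prod_congr rfl fun σ _ => ?_
    rw [← Finset.prod_mul_distrib]
    refine Finset.prod_congr rfl fun τ _ => ?_
    have hne : (⟨a, σ⟩ : Emb K) ≠ ⟨b, τ⟩ := fun h => hab (congrArg Sigma.fst h)
    simp only [hG, if_neg hne]
  have hba : ∏ σ : K b →+* ℂ, ∏ τ : K a →+* ℂ, (cj K e ⟨b, σ⟩ - cj K e ⟨a, τ⟩) =
      (∏ _σ : K a →+* ℂ, ∏ _τ : K b →+* ℂ, (-1 : ℂ)) *
      ∏ σ : K a →+* ℂ, ∏ τ : K b →+* ℂ, (cj K e ⟨a, σ⟩ - cj K e ⟨b, τ⟩) := by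
    rw [Finset.prod_comm, ← Finset.prod_mul_distrib]
    refine Finset.prod_congr rfl fun σ _ => ?_
    rw [← Finset.prod_mul_distrib]
    refine Finset.prod_congr rfl fun τ _ => ?_
    ring
  have hvint : ∀ a b : ι, IsIntegral ℤ
      (∏ σ : K a →+* ℂ, ∏ τ : K b →+* ℂ, (cj K v ⟨a, σ⟩ - cj K v ⟨b, τ⟩)) := fun a b =>
    IsIntegral.prod _ fun σ _ => IsIntegral.prod _ fun τ _ =>
      (cj_int K v _).sub (cj_int K v _)
  have h3 : ∏ x : ι × ι, F x = F (a, b) * (F (b, a) *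
      ∏ x ∈ (Finset.univ.erase (a, b)).erase (b, a), F x) := by
    rw [← Finset.mul_prod_erase Finset.univ F (Finset.mem_univ (a, b)),
      ← Finset.mul_prod_erase (Finset.univ.erase (a, b)) F (a := (b, a))
        (by simp only [Finset.mem_erase, ne_eq, Prod.mk.injEq, Finset.mem_univ, and_true]
            intro h
            exact hab h.2)]
  have h4 : ((k ^ 2 : ℤ) : ℂ) = ((Z ^ 2 : ℤ) : ℂ) *
      ((∏ σ : K a →+* ℂ, ∏ τ : K b →+* ℂ, (cj K v ⟨a, σ⟩ - cj K v ⟨b, τ⟩)) *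
      ((∏ σ : K b →+* ℂ, ∏ τ : K a →+* ℂ, (cj K v ⟨b, σ⟩ - cj K v ⟨a, τ⟩)) *
      ((∏ _σ : K a →+* ℂ, ∏ _τ : K b →+* ℂ, (-1 : ℂ)) *
      ∏ x ∈ (Finset.univ.erase (a, b)).erase (b, a), F x))) := by
    push_cast
    rw [h1, h2, h3, hFab a b hab, hFab b a hab.symm, hba, hZ]
    ring
  have h5 : Z ^ 2 ∣ k ^ 2 := by
    refine int_dvd (pow_ne_zero 2 hZ0) ?_ h4
    refine (hvint a b).mul ((hvint b a).mul (IsIntegral.mul ?_ ?_))
    · exact IsIntegral.prod _ fun σ _ => IsIntegral.prod _ fun τ _ => isIntegral_one.neg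
    · exact IsIntegral.prod _ fun x _ => hFint x
  exact (Int.pow_dvd_pow_iff two_ne_zero).mp h5

end

end Pool.Agent.FK.H13
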