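import Pool.Agent.Helper13_FK.Nlo1

/-!
# Squad FK, module NLO, part 2: the pieces
-/

namespace Pool.Agent.FK.H13

open NumberField Polynomial Module

theorem rpow_prod {Q : Type} [Fintype Q] (H : ℝ) (hH : 0 < H) (x : Q → ℝ) :
    ∏ q, H ^ x q = H ^ ∑ q, x q := by
  rw [Real.rpow_sum_of_pos hH]

section

variable {ι : Type} [Fintype ι] (K : ι → Type) [∀ a, Field (K a)] [∀ a, NumberField (K a)]

omit [Fintype ι] in
theorem cross_low (e : RR K) (H δ : ℝ) (hH : 1 ≤ H) (a b : ι) (Z : ℤ)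
    (hZ : ∏ σ : K a →+* ℂ, ∏ τ : K b →+* ℂ, (cj K e ⟨a, σ⟩ - cj K e ⟨b, τ⟩) = (Z : ℂ))
    (hl : ∀ σ τ, H ^ (1 - δ) ≤ ‖cj K e ⟨a, σ⟩ - cj K e ⟨b, τ⟩‖) :
    H ^ ((1 - δ) * ((finrank ℚ (K a) : ℝ) * finrank ℚ (K b))) ≤ (Z.natAbs : ℝ) := by
  have hH0 : 0 < H := by linarith
  have h1 : (Z.natAbs : ℝ) = ∏ σ : K a →+* ℂ, ∏ τ : K b →+* ℂ,
      ‖cj K e ⟨a, σ⟩ - cj K e ⟨b, τ⟩‖ := by
    have h2 : (Z.natAbs : ℝ) = ‖(Z : ℂ)‖ := by
      rw [Complex.norm_intCast, Nat.cast_natAbs, Int.cast_abs]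
    rw [h2, ← hZ, norm_prod]
    exact Finset.prod_congr rfl fun σ _ => norm_prod _ _
  rw [h1]
  have h3 : H ^ ((1 - δ) * ((finrank ℚ (K a) : ℝ) * finrank ℚ (K b))) =
      ∏ _σ : K a →+* ℂ, ∏ _τ : K b →+* ℂ, H ^ (1 - δ) := by
    rw [Finset.prod_const, Finset.prod_const, Finset.card_univ, Finset.card_univ,
      Embeddings.card, Embeddings.card, ← pow_mul, ← Real.rpow_natCast (H ^ (1 - δ)),
      ← Real.rpow_mul hH0.le]
    push_cast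
    ring_nf
  rw [h3]
  exact Finset.prod_le_prod (fun σ _ => Finset.prod_nonneg fun τ _ => by positivity)
    fun σ _ => Finset.prod_le_prod (fun τ _ => by positivity) fun τ _ => hl σ τ

omit [Fintype ι] in
theorem cross_val (hvzi : VziStmt) (B : ℕ → ValuationSubring ℂ) (hB : GoodB B) (e : RR K)
    (a b : ι) (Z : ℤ)
    (hZ : ∏ σ : K a →+* ℂ, ∏ τ : K b →+* ℂ, (cj K e ⟨a, σ⟩ - cj K e ⟨b, τ⟩) = (Z : ℂ))
    (p : ℕ) (hp : p.Prime) (hd : (p : ℤ) ∣ Z) :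
    ∃ σ τ, (B p).valuation (cj K e ⟨a, σ⟩ - cj K e ⟨b, τ⟩) < 1 := by
  by_contra hcon
  push Not at hcon
  have h1 := ((hvzi B hB p hp Z).1).mpr hd
  rw [← hZ, map_prod] at h1
  refine absurd h1 (not_lt.mpr (le_of_eq ?_))
  symm
  refine Finset.prod_eq_one fun σ _ => ?_
  rw [map_prod]
  refine Finset.prod_eq_one fun τ _ => ?_
  refine le_antisymm ?_ (hcon σ τ)
  rw [ValuationSubring.valuation_le_one_iff]
  exact (hB p hp).1 _ ((cj_int K e _).sub (cj_int K e _))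

omit [Fintype ι] [∀ a, NumberField (K a)] in
theorem op_cross {B : ValuationSubring ℂ} {e : RR K} {i j : Emb K} (h : OP B (cj K e) i j)
    {a b : ι} (hab : a ≠ b) {σ : K a →+* ℂ} {τ : K b →+* ℂ}
    (hv : B.valuation (cj K e ⟨a, σ⟩ - cj K e ⟨b, τ⟩) < 1) :
    (i.1 = a ∧ j.1 = b) ∨ (i.1 = b ∧ j.1 = a) := by
  have hne : (⟨a, σ⟩ : Emb K) ≠ ⟨b, τ⟩ := fun h => hab (congrArg Sigma.fst h)
  rcases h.2.2 _ _ hne hv with h1 | h1
  · exact Or.inl ⟨(congrArg Sigma.fst h1.1).symm, (congrArg Sigma.fst h1.2).symm⟩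
  · exact Or.inr ⟨(congrArg Sigma.fst h1.2).symm, (congrArg Sigma.fst h1.1).symm⟩

/-- Elements which are not exceptional for EX2. -/
def NoSq (B : ℕ → ValuationSubring ℂ) (v : RR K) (δ H : ℝ) (e : RR K) : Prop :=
  ∀ p : ℕ, p.Prime → H ^ (1 - δ) < p → ∀ i j : Emb K,
    (B p).valuation (cj K v i - cj K v j) = 1 →
    (B p).valuation (cj K e i - cj K e j) ≤ (B p).valuation (p : ℂ) ^ 2 →
    ¬ ((i.1 = j.1 ∧ (p : ℝ) ≤ H ^ ((finrank ℚ (K i.1) : ℝ) / 2 - δ)) ∨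
      (i.1 ≠ j.1 ∧ (p : ℝ) ≤ H ^ ((max (finrank ℚ (K i.1)) (finrank ℚ (K j.1)) : ℕ) - δ : ℝ)))

/-- The value at `0` of the polynomial on the line. -/
theorem exists_k (hfph : FphStmt) {n : ℕ} (en : Fin n ≃ Emb K) (e v : RR K) :
    ∃ k : ℤ, (k : ℂ) = ∏ i, ∏ j ∈ Finset.Ioi i, ((cj K v (en j) - cj K v (en i)) *
      (cj K e (en j) - cj K e (en i))) := by
  obtain ⟨Φ, hΦ⟩ := hfph ι K n en e v
  refine ⟨Φ.eval 0, ?_⟩
  have h1 : ((Φ.eval 0 : ℤ) : ℂ) = (Φ.map (Int.castRingHom ℂ)).eval 0 := by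
    rw [eval_zero_map]
    simp
  rw [h1, hΦ, eval_prod]
  refine Finset.prod_congr rfl fun i _ => ?_
  rw [eval_prod]
  refine Finset.prod_congr rfl fun j _ => ?_
  simp

omit [Fintype ι] [∀ a, NumberField (K a)] in
theorem natAbs_eq {n : ℕ} (en : Fin n ≃ Emb K) (e v : RR K) (k : ℤ) (N : ℕ)
    (hk : (k : ℂ) = ∏ i, ∏ j ∈ Finset.Ioi i, ((cj K v (en j) - cj K v (en i)) *
      (cj K e (en j) - cj K e (en i))))
    (hN : (N : ℝ) = ∏ i, ∏ j ∈ Finset.Ioi i, (‖cj K v (en j) - cj K v (en i)‖ *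
      ‖cj K e (en j) - cj K e (en i)‖)) : N = k.natAbs := by
  have h1 : (k.natAbs : ℝ) = ‖(k : ℂ)‖ := by
    rw [Complex.norm_intCast, Nat.cast_natAbs, Int.cast_abs]
  have h2 : (N : ℝ) = (k.natAbs : ℝ) := by
    rw [h1, hk, hN, norm_prod]
    refine Finset.prod_congr rfl fun i _ => ?_
    rw [norm_prod]
    refine Finset.prod_congr rfl fun j _ => ?_
    rw [norm_mul]
  exact_mod_cast h2

end

end Pool.Agent.FK.H13
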