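import Pool.Agent.Helper13_FK.Nlo2

/-!
# Squad FK, stronger form of NLO, part 1: the pieces inside one component
-/

namespace Pool.Agent.FK.H13

open NumberField Polynomial Module

section

variable {ι : Type} [Fintype ι] (K : ι → Type) [∀ a, Field (K a)] [∀ a, NumberField (K a)]

omit [Fintype ι] [∀ a, NumberField (K a)] in
theorem val_le_one {B : ℕ → ValuationSubring ℂ} (hB : GoodB B) {p : ℕ} (hp : p.Prime)
    (e : RR K) (i j : Emb K) : (B p).valuation (cj K e i - cj K e j) ≤ 1 := by
  rw [ValuationSubring.valuation_le_one_iff]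
  exact (hB p hp).1 _ ((cj_int K e i).sub (cj_int K e j))

/-- If `p` divides `N` and comes from a single pair, the differences of the conjugates of `v`
are units. -/
theorem v_unit (hvzi : VziStmt) {n : ℕ} (en : Fin n ≃ Emb K) (B : ℕ → ValuationSubring ℂ)
    (hB : GoodB B) (v e : RR K) (δ δ' : ℝ) (H : ℕ) (N M : ℕ)
    (hge : GE K n en B δ δ' H v e N M) (k : ℤ)
    (hk : (k : ℂ) = ∏ i, ∏ j ∈ Finset.Ioi i, ((cj K v (en j) - cj K v (en i)) *
      (cj K e (en j) - cj K e (en i)))) (p : ℕ) (hp : p.Prime) (hpM : ¬ p ∣ M) (hpN : p ∣ N)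
    (i' j' : Emb K) (hij' : i' ≠ j') : (B p).valuation (cj K v i' - cj K v j') = 1 := by
  classical
  set V := (B p).valuation with hV
  obtain ⟨i, j, hop, hvij, hm⟩ := hge.single p hp hpM hpN
  refine le_antisymm (val_le_one K hB hp v i' j') ?_
  by_contra hlt
  rw [not_le] at hlt
  have hNk := natAbs_eq K en e v k N hk hge.eqN
  have hN0 : N ≠ 0 := hge.pos.ne'
  have hk0 : (k : ℂ) ≠ 0 := by
    intro h
    have : k = 0 := by exact_mod_cast h
    rw [this, Int.natAbs_zero] at hNk
    exact hN0 hNk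
  -- the valuation of k
  have hval : V (k : ℂ) = V (p : ℂ) ^ (N.factorization p) := by
    have hdvd : (p : ℤ) ^ (N.factorization p) ∣ k := by
      have h1 : p ^ (N.factorization p) ∣ k.natAbs := by
        rw [← hNk]
        exact Nat.ordProj_dvd N p
      have h2 := Int.natCast_dvd.mpr h1
      push_cast at h2
      exact h2
    have hndvd : ¬ (p : ℤ) ^ (N.factorization p + 1) ∣ k := by
      intro h
      have h2 : ((p ^ (N.factorization p + 1) : ℕ) : ℤ) ∣ k := by
        push_cast
        exact h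
      have h1 := Int.natCast_dvd.mp h2
      rw [← hNk] at h1
      exact Nat.pow_succ_factorization_not_dvd hN0 hp h1
    refine le_antisymm (((hvzi B hB p hp k).2 _).mpr hdvd) ?_
    obtain ⟨w, hw⟩ := hdvd
    have hpw : ¬ (p : ℤ) ∣ w := by
      rintro ⟨u, hu⟩
      apply hndvd
      refine ⟨u, ?_⟩
      rw [hw, hu]
      ring
    have hw1 : V (w : ℂ) = 1 := by
      refine le_antisymm ?_ ?_
      · rw [hV, ValuationSubring.valuation_le_one_iff]
        exact (hB p hp).1 _ (isIntegral_algebraMap (R := ℤ) (x := w))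
      · by_contra h
        rw [not_le] at h
        exact hpw (((hvzi B hB p hp w).1).mp h)
    rw [hw]
    push_cast
    rw [map_mul, map_pow, hw1, mul_one]
  have hsq := sq_eq K en e v k hk
  set G : Emb K → Emb K → ℂ := fun i j =>
    (if i = j then 1 else (cj K v i - cj K v j) * (cj K e i - cj K e j)) with hG
  have hGle : ∀ x y, V (G x y) ≤ 1 := by
    intro x y
    simp only [hG]
    split_ifs
    · rw [map_one]
    · rw [map_mul]
      exact mul_le_one' (val_le_one K hB hp v x y) (val_le_one K hB hp e x y)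
  have hGij : V (G i j) ≤ V (k : ℂ) := by
    simp only [hG]
    rw [if_neg hop.1, map_mul, hvij, one_mul, hval]
    exact hm _ (Nat.ordProj_dvd N p)
  have hGji : V (G j i) ≤ V (k : ℂ) := by
    simp only [hG]
    rw [if_neg hop.1.symm, map_mul, Valuation.map_sub_swap, hvij, one_mul,
      Valuation.map_sub_swap, hval]
    exact hm _ (Nat.ordProj_dvd N p)
  have hGkl : V (G i' j') < 1 := by
    simp only [hG]
    rw [if_neg hij', map_mul]
    exact mul_lt_one_of_lt_of_le hlt (val_le_one K hB hp e i' j')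
  have hprod : V (k : ℂ) ^ 2 = ∏ x : Emb K × Emb K, V (G x.1 x.2) := by
    rw [← map_pow, hsq, map_prod, Fintype.prod_prod_type]
    refine Finset.prod_congr rfl fun x _ => ?_
    rw [map_prod]
  have hne1 : (j, i) ≠ ((i, j) : Emb K × Emb K) := by
    intro h
    exact hop.1 (Prod.mk.injEq .. ▸ h).2
  have hne2 : (i', j') ≠ ((i, j) : Emb K × Emb K) := by
    intro h
    rw [Prod.mk.injEq] at h
    rw [h.1, h.2, hvij] at hlt
    exact lt_irrefl _ hlt
  have hne3 : (i', j') ≠ ((j, i) : Emb K × Emb K) := by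
    intro h
    rw [Prod.mk.injEq] at h
    rw [h.1, h.2, Valuation.map_sub_swap, hvij] at hlt
    exact lt_irrefl _ hlt
  rw [← Finset.mul_prod_erase Finset.univ _ (Finset.mem_univ (i, j)),
    ← Finset.mul_prod_erase (Finset.univ.erase (i, j)) _ (a := (j, i))
      (Finset.mem_erase.mpr ⟨hne1, Finset.mem_univ _⟩),
    ← Finset.mul_prod_erase ((Finset.univ.erase (i, j)).erase (j, i)) _ (a := (i', j'))
      (Finset.mem_erase.mpr ⟨hne3, Finset.mem_erase.mpr ⟨hne2, Finset.mem_univ _⟩⟩)] at hprod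
  have hrest : ∏ x ∈ ((Finset.univ.erase (i, j)).erase (j, i)).erase (i', j'),
      V (G x.1 x.2) ≤ 1 := Finset.prod_le_one' fun x _ => hGle _ _
  have hkpos : 0 < V (k : ℂ) := by
    rw [zero_lt_iff]
    exact (Valuation.ne_zero_iff _).mpr hk0
  have h1 : V (k : ℂ) ^ 2 ≤ V (k : ℂ) * (V (k : ℂ) * (V (G i' j') * 1)) := by
    rw [hprod]
    exact mul_le_mul' hGij (mul_le_mul' hGji (mul_le_mul' le_rfl hrest))
  have h2 : V (k : ℂ) * (V (k : ℂ) * (V (G i' j') * 1)) < V (k : ℂ) ^ 2 := by
    rw [mul_one, ← mul_assoc, ← sq]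
    calc V (k : ℂ) ^ 2 * V (G i' j') < V (k : ℂ) ^ 2 * 1 :=
          (mul_lt_mul_iff_right₀ (pow_pos hkpos 2)).mpr hGkl
      _ = _ := mul_one _
  exact absurd h1 (not_le.mpr h2)

end

end Pool.Agent.FK.H13
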