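import Pool.Agent.Helper5_Frey.Defs

/-!
# Squad FK: Frey's inequality for hyperelliptic Jacobians with prescribed 2-torsion:
definitions and statements of the modules (paper: PAPER_FK.md)
-/

namespace Pool.Agent.FK

open NumberField Polynomial Module

noncomputable section

/-! ### Definitions -/

section Fields

variable {ι : Type} (K : ι → Type) [∀ a, Field (K a)] [∀ a, NumberField (K a)]

/-- The ring of integers of the product of the fields `K a`. -/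
abbrev RR : Type := ∀ a, 𝓞 (K a)

/-- The ring homomorphisms from the product of the fields to the complex numbers. -/
abbrev Emb : Type := Σ a, (K a →+* ℂ)

/-- The conjugates of an element. -/
def cj (e : RR K) (i : Emb K) : ℂ := i.2 ((e i.1 : 𝓞 (K i.1)) : K i.1)

/-- The elements with all conjugates of absolute value at most `H`. -/
def Box (H : ℝ) : Set (RR K) := {e | ∀ i, ‖cj K e i‖ ≤ H}

/-- The element has an integral characteristic polynomial which satisfies Frey's inequality. -/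
def Holds [Fintype ι] (n : ℕ) (κ C₀ : ℝ) (e : RR K) : Prop :=
  ∃ f : ℤ[X], f.map (Int.castRingHom ℂ) = ∏ i : Emb K, (X - C (cj K e i)) ∧
    Helper5Frey.FreyHolds n κ C₀ f

end Fields

/-- No two of the linear functions `z j - z i + t (v j - v i)` have a common zero. -/
def NonDeg {I : Type} (z v : I → ℂ) : Prop :=
  ∀ i j k l, i ≠ j → k ≠ l → ¬ (i = k ∧ j = l) → ¬ (i = l ∧ j = k) →
    (z j - z i) * (v l - v k) ≠ (z l - z k) * (v j - v i)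

/-- `Φ` is the product of the `(v j - v i) (z j - z i + t (v j - v i))`, `i < j`. -/
def LinePoly (n : ℕ) (z v : Fin n → ℂ) (Φ : ℤ[X]) : Prop :=
  Φ.map (Int.castRingHom ℂ) =
    ∏ i, ∏ j ∈ Finset.Ioi i, (C (v j - v i) * (C (z j - z i) + C (v j - v i) * X))

/-- `Δ` lies in the ideal generated by `Φ` and its derivative. -/
def Bez (Φ : ℤ[X]) (Δ : ℤ) : Prop := ∃ A B : ℤ[X], A * Φ + B * derivative Φ = C Δ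

/-- The data on one line. -/
structure LP (d : ℕ) (a : ℤ) (C₁ : ℝ) (c : ℕ) (H : ℕ) (Φ : ℤ[X]) (Δ : ℤ) : Prop where
  deg : Φ.natDegree = d
  lc : Φ.leadingCoeff = a
  ne : Δ ≠ 0
  bd : |(Δ : ℝ)| ≤ C₁ * (H : ℝ) ^ c
  val : ∀ t : ℕ, t < H → |((Φ.eval (t : ℤ) : ℤ) : ℝ)| ≤ C₁ * (H : ℝ) ^ c
  bez : Bez Φ Δ

/-- The part of `N` composed of the primes dividing `M` and of the primes at most `H ^ δ` whose
square divides `N`. -/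
def TT (δ H : ℝ) (M N : ℕ) : ℕ :=
  ∏ p ∈ N.primeFactors.filter (fun p => p ∣ M ∨ ((p : ℝ) ≤ H ^ δ ∧ p ^ 2 ∣ N)),
    p ^ N.factorization p

/-- For every prime `p` a valuation ring of `ℂ` over `p`. -/
def GoodB (B : ℕ → ValuationSubring ℂ) : Prop :=
  ∀ p : ℕ, p.Prime → (∀ x : ℂ, IsIntegral ℤ x → x ∈ B p) ∧ (B p).valuation (p : ℂ) < 1

/-- `{i, j}` is the only pair whose difference lies in the maximal ideal. -/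
def OP {I : Type} (B : ValuationSubring ℂ) (z : I → ℂ) (i j : I) : Prop :=
  i ≠ j ∧ B.valuation (z i - z j) < 1 ∧ ∀ k l, k ≠ l → B.valuation (z k - z l) < 1 →
    (k = i ∧ l = j) ∨ (k = j ∧ l = i)

/-! ### Integer polynomials on a line -/

/-- L1: few solutions. -/
def L1Stmt : Prop := ∀ (d : ℕ) (a : ℤ), 1 ≤ d → a ≠ 0 → ∃ C : ℝ, ∀ Φ : ℤ[X], Φ.natDegree = d →
  Φ.leadingCoeff = a → ∀ q H : ℕ, 1 ≤ q → 1 ≤ H →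
    ({t : ℕ | t < H ∧ (q : ℤ) ∣ Φ.eval (t : ℤ)}.ncard : ℝ) ≤
      C * (1 + (H : ℝ) * (q : ℝ) ^ (-(2 / ((d : ℝ) * (d + 1)))))

/-- L2: moduli prime to the discriminant. -/
def L2Stmt : Prop := ∀ (Φ : ℤ[X]) (Δ : ℤ), Bez Φ Δ → 1 ≤ Φ.natDegree → ∀ q H : ℕ, 1 ≤ q →
  q.Coprime (Φ.leadingCoeff * Δ).natAbs →
    {t : ℕ | t < H ∧ (q : ℤ) ∣ Φ.eval (t : ℤ)}.ncard ≤
      Φ.natDegree ^ q.primeFactors.card * (H / q + 1)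

/-- LA: large primes dividing `Δ`. -/
def LaStmt : Prop := ∀ (d : ℕ) (a : ℤ) (C₁ : ℝ) (c : ℕ) (δ : ℝ), 1 ≤ d → a ≠ 0 → 0 < δ → δ < 1 →
  ∃ η : ℝ, 0 < η ∧ ∃ C : ℝ, ∀ (H : ℕ) (Φ : ℤ[X]) (Δ : ℤ), 1 ≤ H → LP d a C₁ c H Φ Δ →
    ({t : ℕ | t < H ∧ ∃ p : ℕ, p.Prime ∧ (H : ℝ) ^ δ < p ∧ (p : ℤ) ∣ Φ.eval (t : ℤ) ∧
      (p : ℤ) ∣ Δ}.ncard : ℝ) ≤ C * (H : ℝ) ^ (1 - η)

/-- LB: squares of primes of medium size. -/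
def LbStmt : Prop := ∀ (d : ℕ) (a : ℤ) (C₁ : ℝ) (c : ℕ) (δ : ℝ), 1 ≤ d → a ≠ 0 → 0 < δ → δ < 1 →
  ∃ η : ℝ, 0 < η ∧ ∃ C : ℝ, ∀ (H : ℕ) (Φ : ℤ[X]) (Δ : ℤ), 1 ≤ H → LP d a C₁ c H Φ Δ →
    ({t : ℕ | t < H ∧ ∃ p : ℕ, p.Prime ∧ (H : ℝ) ^ δ < p ∧ (p : ℝ) ≤ (H : ℝ) ^ (1 - δ) ∧
      ¬ (p : ℤ) ∣ Δ ∧ (p : ℤ) ^ 2 ∣ Φ.eval (t : ℤ)}.ncard : ℝ) ≤ C * (H : ℝ) ^ (1 - η)

/-- LC: the part composed of the primes dividing `2 a Δ`. -/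
def LcStmt : Prop := ∀ (d : ℕ) (a : ℤ) (C₁ : ℝ) (c : ℕ) (δ' : ℝ), 1 ≤ d → a ≠ 0 → 0 < δ' →
  ∃ η : ℝ, 0 < η ∧ ∃ C : ℝ, ∀ (H : ℕ) (Φ : ℤ[X]) (Δ : ℤ), 1 ≤ H → LP d a C₁ c H Φ Δ →
    ({t : ℕ | t < H ∧ Φ.eval (t : ℤ) ≠ 0 ∧ (H : ℝ) ^ δ' <
      ((∏ p ∈ (Φ.eval (t : ℤ)).natAbs.primeFactors.filter (fun p => p ∣ (2 * a * Δ).natAbs),
        p ^ (Φ.eval (t : ℤ)).natAbs.factorization p : ℕ) : ℝ)}.ncard : ℝ) ≤ C * (H : ℝ) ^ (1 - η)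

/-- LD: the part composed of the small primes dividing the value twice. -/
def LdStmt : Prop := ∀ (d : ℕ) (a : ℤ) (C₁ : ℝ) (c : ℕ) (δ δ' : ℝ), 1 ≤ d → a ≠ 0 → 0 < δ →
  8 * δ ≤ δ' → δ' ≤ 1 →
  ∃ η : ℝ, 0 < η ∧ ∃ C : ℝ, ∀ (H : ℕ) (Φ : ℤ[X]) (Δ : ℤ), 1 ≤ H → LP d a C₁ c H Φ Δ →
    ({t : ℕ | t < H ∧ Φ.eval (t : ℤ) ≠ 0 ∧ (H : ℝ) ^ δ' <
      ((∏ p ∈ (Φ.eval (t : ℤ)).natAbs.primeFactors.filter (fun p => ¬ p ∣ (2 * a * Δ).natAbs ∧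
          (p : ℝ) ≤ (H : ℝ) ^ δ ∧ p ^ 2 ∣ (Φ.eval (t : ℤ)).natAbs),
        p ^ (Φ.eval (t : ℤ)).natAbs.factorization p : ℕ) : ℝ)}.ncard : ℝ) ≤ C * (H : ℝ) ^ (1 - η)

/-- The value is good. -/
def LineGood (δ δ' : ℝ) (H : ℕ) (a : ℤ) (Φ : ℤ[X]) (Δ : ℤ) (t : ℕ) : Prop :=
  Φ.eval (t : ℤ) ≠ 0 ∧
  (∀ p : ℕ, p.Prime → (H : ℝ) ^ δ < p → (p : ℤ) ∣ Φ.eval (t : ℤ) → ¬ (p : ℤ) ∣ Δ) ∧
  (∀ p : ℕ, p.Prime → (H : ℝ) ^ δ < p → (p : ℝ) ≤ (H : ℝ) ^ (1 - δ) →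
    ¬ (p : ℤ) ^ 2 ∣ Φ.eval (t : ℤ)) ∧
  (TT δ H (2 * a * Δ).natAbs (Φ.eval (t : ℤ)).natAbs : ℝ) ≤ (H : ℝ) ^ δ'

/-- LIN: almost all values on a line are good. -/
def LinStmt : Prop := ∀ (d : ℕ) (a : ℤ) (C₁ : ℝ) (c : ℕ) (δ δ' : ℝ), 1 ≤ d → a ≠ 0 → 0 < δ →
  16 * δ ≤ δ' → δ' ≤ 1 →
  ∃ η : ℝ, 0 < η ∧ ∃ C : ℝ, ∀ (H : ℕ) (Φ : ℤ[X]) (Δ : ℤ), 1 ≤ H → LP d a C₁ c H Φ Δ →
    ({t : ℕ | t < H ∧ ¬ LineGood δ δ' H a Φ Δ t}.ncard : ℝ) ≤ C * (H : ℝ) ^ (1 - η)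

/-- LE: the differences of the conjugates are large. -/
def LeStmt : Prop := ∀ (n : ℕ) (v : Fin n → ℂ), Function.Injective v → ∃ C : ℝ,
  ∀ (δ : ℝ) (H : ℕ) (z : Fin n → ℂ), 0 < δ → δ < 1 → 1 ≤ H →
    ({t : ℕ | t < H ∧ ∃ i j, i ≠ j ∧ ‖(z i + t * v i) - (z j + t * v j)‖ <
      (H : ℝ) ^ (1 - δ)}.ncard : ℝ) ≤ C * (H : ℝ) ^ (1 - δ)

/-- BEZ: the polynomial on the line satisfies `LP`. -/
def BezStmt : Prop := ∀ (n : ℕ) (v : Fin n → ℂ) (a : ℤ), 2 ≤ n → Function.Injective v →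
  (a : ℂ) = ∏ i, ∏ j ∈ Finset.Ioi i, (v j - v i) ^ 2 → ∀ c₀ : ℝ, 1 ≤ c₀ →
  ∃ (C₁ : ℝ) (c : ℕ), ∀ (H : ℕ) (z : Fin n → ℂ) (Φ : ℤ[X]), 1 ≤ H → (∀ i, ‖z i‖ ≤ c₀ * H) →
    NonDeg z v → LinePoly n z v Φ → ∃ Δ : ℤ, LP (n * (n - 1) / 2) a C₁ c H Φ Δ

/-! ### Number fields -/

/-- FPH: integrality of the polynomial on a line. -/
def FphStmt : Prop := ∀ (ι : Type) [Fintype ι] (K : ι → Type) [∀ a, Field (K a)]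
  [∀ a, NumberField (K a)] (n : ℕ) (en : Fin n ≃ Emb K) (e v : RR K),
    ∃ Φ : ℤ[X], LinePoly n (fun i => cj K e (en i)) (fun i => cj K v (en i)) Φ

/-- FPO: integrality of the characteristic polynomial. -/
def FpoStmt : Prop := ∀ (ι : Type) [Fintype ι] (K : ι → Type) [∀ a, Field (K a)]
  [∀ a, NumberField (K a)] (e : RR K),
    ∃ f : ℤ[X], f.map (Int.castRingHom ℂ) = ∏ i : Emb K, (X - C (cj K e i))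

/-- CPZ: integrality of the resultant of two elements. -/
def CpzStmt : Prop := ∀ (L L' : Type) [Field L] [NumberField L] [Field L'] [NumberField L']
  (x : 𝓞 L) (y : 𝓞 L'), ∃ N : ℤ,
    ∏ σ : L →+* ℂ, ∏ τ : L' →+* ℂ, (σ (x : L) - τ (y : L')) = (N : ℂ)

/-- GEN: a generator. -/
def GenStmt : Prop := ∀ (ι : Type) [Fintype ι] (K : ι → Type) [∀ a, Field (K a)]
  [∀ a, NumberField (K a)], ∃ v : RR K, Function.Injective (cj K v)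

/-- BOX: the size of the box. -/
def BoxStmt : Prop := ∀ (ι : Type) [Fintype ι] (K : ι → Type) [∀ a, Field (K a)]
  [∀ a, NumberField (K a)],
    (∀ R : ℝ, 0 ≤ R → (Box K R).Finite ∧
      ((Box K R).ncard : ℝ) ≤ (2 * R + 1) ^ Fintype.card (Emb K)) ∧
    ∃ c : ℝ, 0 < c ∧ ∀ H : ℝ, 1 ≤ H → c * H ^ Fintype.card (Emb K) ≤ (Box K H).ncard

/-- AVG: reduction to lines. -/
def AvgStmt : Prop := ∀ (ι : Type) [Fintype ι] (K : ι → Type) [∀ a, Field (K a)]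
  [∀ a, NumberField (K a)] (v : RR K) (c : ℝ), 0 ≤ c → (∀ i, ‖cj K v i‖ ≤ c) →
  ∀ (S D : Set (RR K)) (H : ℕ) (b : ℝ), 1 ≤ H → 0 ≤ b →
    (∀ e ∈ Box K ((c + 1) * H), e ∉ D →
      ({t : ℕ | t < H ∧ e + (t : ℤ) • v ∈ S}.ncard : ℝ) ≤ b) →
    ((S ∩ Box K H).ncard : ℝ) * H ≤
      (3 * (c + 1) * H) ^ Fintype.card (Emb K) * b + (D ∩ Box K ((c + 1) * H)).ncard * H

/-- ZER: the degenerate lines. -/
def ZerStmt : Prop := ∀ (ι : Type) [Fintype ι] (K : ι → Type) [∀ a, Field (K a)]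
  [∀ a, NumberField (K a)] (v : RR K), Function.Injective (cj K v) → ∃ C : ℝ,
    ∀ H : ℝ, 1 ≤ H → ({e : RR K | e ∈ Box K H ∧ ¬ NonDeg (cj K e) (cj K v)}.ncard : ℝ) ≤
      C * H ^ ((Fintype.card (Emb K) : ℝ) - 1)

/-! ### Valuation rings -/

/-- VAL: existence of the valuation rings. -/
def ValStmt : Prop := ∃ B : ℕ → ValuationSubring ℂ, GoodB B

/-- VZI: the valuation of integers. -/
def VziStmt : Prop := ∀ B : ℕ → ValuationSubring ℂ, GoodB B → ∀ (p : ℕ), p.Prime →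
  ∀ k : ℤ, ((B p).valuation (k : ℂ) < 1 ↔ (p : ℤ) ∣ k) ∧
    ∀ m : ℕ, (B p).valuation (k : ℂ) ≤ (B p).valuation (p : ℂ) ^ m ↔ (p : ℤ) ^ m ∣ k

/-- SIN: a prime which divides the value and not `Δ` comes from a single pair. -/
def SinStmt : Prop := ∀ B : ℕ → ValuationSubring ℂ, GoodB B → ∀ (n : ℕ) (z v : Fin n → ℂ)
  (Φ : ℤ[X]) (Δ : ℤ), (∀ i, IsIntegral ℤ (z i)) → (∀ i, IsIntegral ℤ (v i)) →
  LinePoly n z v Φ → Bez Φ Δ → ∀ (p : ℕ) (t : ℤ) (a : ℤ), p.Prime →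
  (a : ℂ) = ∏ i, ∏ j ∈ Finset.Ioi i, (v j - v i) ^ 2 → ¬ (p : ℤ) ∣ a * Δ →
  (p : ℤ) ∣ Φ.eval t → ∃ i j, OP (B p) (fun k => z k + t * v k) i j ∧
    ∀ m : ℕ, (p : ℤ) ^ m ∣ Φ.eval t →
      (B p).valuation ((z i + t * v i) - (z j + t * v j)) ≤ (B p).valuation (p : ℂ) ^ m

/-- NOD: a single pair gives a node prime. -/
def NodStmt : Prop := ∀ B : ℕ → ValuationSubring ℂ, GoodB B → ∀ (I : Type) [Fintype I]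
  (z : I → ℂ) (f : ℤ[X]), (∀ i, IsIntegral ℤ (z i)) →
  f.map (Int.castRingHom ℂ) = ∏ i, (X - C (z i)) → ∀ (p : ℕ), p.Prime → p ≠ 2 →
  (∃ i j, OP (B p) z i j) → p ∈ Helper5Frey.nodePrimes f

/-- OWN: large squares in one field. -/
def OwnStmt : Prop := ∀ B : ℕ → ValuationSubring ℂ, GoodB B → ∀ (L : Type) [Field L]
  [NumberField L] (v : 𝓞 L), (∀ σ τ : L →+* ℂ, σ (v : L) = τ (v : L) → σ = τ) →
  ∀ δ : ℝ, 0 < δ → δ < 1 → ∃ η : ℝ, 0 < η ∧ ∃ C : ℝ, ∀ H : ℝ, 1 ≤ H →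
    ({x : 𝓞 L | (∀ σ : L →+* ℂ, ‖σ (x : L)‖ ≤ H) ∧ ∃ p : ℕ, p.Prime ∧ H ^ (1 - δ) < p ∧
      (p : ℝ) ≤ H ^ ((finrank ℚ L : ℝ) / 2 - δ) ∧
      ∃ σ τ : L →+* ℂ, (B p).valuation (σ (v : L) - τ (v : L)) = 1 ∧
        (B p).valuation (σ (x : L) - τ (x : L)) ≤ (B p).valuation (p : ℂ) ^ 2}.ncard : ℝ) ≤
      C * H ^ ((finrank ℚ L : ℝ) - η)

/-- IDL: small elements in a coset of an ideal. -/
def IdlStmt : Prop := ∀ B : ℕ → ValuationSubring ℂ, GoodB B → ∀ (L : Type) [Field L]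
  [NumberField L], ∃ C : ℝ, ∀ (H : ℝ) (p : ℕ) (τ : L →+* ℂ) (w : ℂ), 1 ≤ H → p.Prime →
    ({y : 𝓞 L | (∀ σ : L →+* ℂ, ‖σ (y : L)‖ ≤ H) ∧
      (B p).valuation (w - τ (y : L)) ≤ (B p).valuation (p : ℂ) ^ 2}.ncard : ℝ) ≤
      C * (1 + H ^ finrank ℚ L / (p : ℝ) ^ 2)

/-- CRS: large squares in a resultant. -/
def CrsStmt : Prop := ∀ B : ℕ → ValuationSubring ℂ, GoodB B → ∀ (L L' : Type) [Field L]
  [NumberField L] [Field L'] [NumberField L'] (δ : ℝ), 0 < δ → δ < 1 →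
  ∃ η : ℝ, 0 < η ∧ ∃ C : ℝ, ∀ H : ℝ, 1 ≤ H →
    ({x : 𝓞 L × 𝓞 L' | (∀ σ : L →+* ℂ, ‖σ (x.1 : L)‖ ≤ H) ∧
      (∀ τ : L' →+* ℂ, ‖τ (x.2 : L')‖ ≤ H) ∧ ∃ p : ℕ, p.Prime ∧ H ^ (1 - δ) < p ∧
      (p : ℝ) ≤ H ^ ((finrank ℚ L' : ℝ) - δ) ∧ ∃ (σ : L →+* ℂ) (τ : L' →+* ℂ),
        (B p).valuation (σ (x.1 : L) - τ (x.2 : L')) ≤ (B p).valuation (p : ℂ) ^ 2}.ncard : ℝ) ≤
      C * H ^ ((finrank ℚ L : ℝ) + finrank ℚ L' - η)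

/-! ### Conclusion -/

/-- The element `e` is good: `N` is the absolute value of the product of the differences of the
conjugates of `e` and of `v`, and the primes which do not divide `M` come from single pairs. -/
structure GE {ι : Type} (K : ι → Type) [∀ a, Field (K a)] [∀ a, NumberField (K a)] (n : ℕ)
    (en : Fin n ≃ Emb K) (B : ℕ → ValuationSubring ℂ) (δ δ' : ℝ) (H : ℕ) (v e : RR K)
    (N M : ℕ) : Prop where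
  pos : 0 < N
  eqN : (N : ℝ) = ∏ i, ∏ j ∈ Finset.Ioi i, (‖cj K v (en j) - cj K v (en i)‖ *
    ‖cj K e (en j) - cj K e (en i)‖)
  two : 2 ∣ M
  single : ∀ p : ℕ, p.Prime → ¬ p ∣ M → p ∣ N → ∃ i j, OP (B p) (cj K e) i j ∧
    (B p).valuation (cj K v i - cj K v j) = 1 ∧
    ∀ m : ℕ, p ^ m ∣ N → (B p).valuation (cj K e i - cj K e j) ≤ (B p).valuation (p : ℂ) ^ m
  big : ∀ p : ℕ, p.Prime → (H : ℝ) ^ δ < p → p ∣ N → ¬ p ∣ M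
  sq : ∀ p : ℕ, p.Prime → (H : ℝ) ^ δ < p → (p : ℝ) ≤ (H : ℝ) ^ (1 - δ) → ¬ p ^ 2 ∣ N
  tt : (TT δ H M N : ℝ) ≤ (H : ℝ) ^ δ'
  low : ∀ i j : Emb K, i ≠ j → (H : ℝ) ^ (1 - δ) ≤ ‖cj K e i - cj K e j‖

/-- EXC: almost all elements are good. -/
def ExcStmt : Prop := ∀ (ι : Type) [Fintype ι] (K : ι → Type) [∀ a, Field (K a)]
  [∀ a, NumberField (K a)] (n : ℕ) (en : Fin n ≃ Emb K) (B : ℕ → ValuationSubring ℂ) (v : RR K)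
  (δ δ' : ℝ), GoodB B → 2 ≤ n → Function.Injective (cj K v) → 0 < δ → 16 * δ ≤ δ' → δ' ≤ 1 →
  ∃ η : ℝ, 0 < η ∧ ∃ C : ℝ, ∀ H : ℕ, 1 ≤ H →
    ({e : RR K | e ∈ Box K H ∧ ¬ ∃ N M : ℕ, GE K n en B δ δ' H v e N M}.ncard : ℝ) ≤
      C * (H : ℝ) ^ ((n : ℝ) - η)

/-- EX2: almost all elements have no large squares. -/
def Ex2Stmt : Prop := ∀ (ι : Type) [Fintype ι] (K : ι → Type) [∀ a, Field (K a)]
  [∀ a, NumberField (K a)] (n : ℕ) (B : ℕ → ValuationSubring ℂ) (v : RR K)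
  (δ : ℝ), GoodB B → Fintype.card (Emb K) = n → Function.Injective (cj K v) → 0 < δ → δ < 1 →
  ∃ η : ℝ, 0 < η ∧ ∃ C : ℝ, ∀ H : ℕ, 1 ≤ H →
    ({e : RR K | e ∈ Box K H ∧ ∃ p : ℕ, p.Prime ∧ (H : ℝ) ^ (1 - δ) < p ∧ ∃ i j : Emb K,
      (B p).valuation (cj K v i - cj K v j) = 1 ∧
      (B p).valuation (cj K e i - cj K e j) ≤ (B p).valuation (p : ℂ) ^ 2 ∧
      ((i.1 = j.1 ∧ (p : ℝ) ≤ (H : ℝ) ^ ((finrank ℚ (K i.1) : ℝ) / 2 - δ)) ∨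
        (i.1 ≠ j.1 ∧ (p : ℝ) ≤
          (H : ℝ) ^ ((max (finrank ℚ (K i.1)) (finrank ℚ (K j.1)) : ℕ) - δ : ℝ)))}.ncard : ℝ) ≤
      C * (H : ℝ) ^ ((n : ℝ) - η)

/-- LOW: lower bound for the product of the primes outside `M`. -/
def LowStmt : Prop := ∀ (Q : Type) [Fintype Q] (N M : ℕ) (P : Q → ℕ) (H δ δ' : ℝ)
  (m l : Q → ℝ), 1 ≤ H → 0 < δ → 0 < δ' → 0 < N → (∀ q, P q ∣ N) →
  (∀ p : ℕ, p.Prime → ¬ p ∣ M → ∀ q q', p ∣ P q → p ∣ P q' → q = q') →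
  (∀ p : ℕ, p.Prime → H ^ δ < p → p ∣ N → ¬ p ∣ M) → (TT δ H M N : ℝ) ≤ H ^ δ' →
  (∀ (q : Q) (p : ℕ), p.Prime → H ^ δ < p → p ^ 2 ∣ P q → H ^ m q ≤ p) →
  (∀ q, H ^ l q ≤ P q) →
    ∏ q, min (H ^ m q) (H ^ (l q - δ')) ≤
      ((∏ p ∈ N.primeFactors.filter (fun p => ¬ p ∣ M), p : ℕ) : ℝ)

/-- HGT: upper bound for the height. -/
def HgtStmt : Prop := ∀ n : ℕ, 3 ≤ n → ∃ C₀ : ℝ, ∀ (I : Type) [Fintype I] (z : I → ℂ)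
  (f : ℤ[X]), Fintype.card I = n → Function.Injective z →
  f.map (Int.castRingHom ℂ) = ∏ i, (X - C (z i)) →
    (∀ κ C : ℝ, Helper5Frey.hW ((n - 1) / 2) f ≤ κ * Real.log (Helper5Frey.Nstar f) + C →
      Helper5Frey.FreyHolds n κ C f) ∧ (Helper5Frey.nodePrimes f).Finite ∧
    ∀ H : ℝ, 1 ≤ H → (∀ i, ‖z i‖ ≤ H) → Helper5Frey.hW ((n - 1) / 2) f ≤
      ((((n - 1) / 2 : ℕ) : ℝ) * (n - ((n - 1) / 2 : ℕ) - 1) / 2) * Real.log H + C₀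

/-- EXP: the exponents of the pieces. -/
def ExpStmt : Prop := ∀ (ι : Type) [Fintype ι] [LinearOrder ι] (m : ι → ℕ), 2 ≤ Fintype.card ι →
  ((∑ a, m a : ℕ) : ℝ) / 2 ≤ ∑ q : {q : ι × ι // q.1 < q.2}, ((max (m q.1.1) (m q.1.2) : ℕ) : ℝ)

/-- NLO: lower bound for the product of the node primes of almost all elements. -/
def NloStmt : Prop := ∀ (ι : Type) [Fintype ι] (K : ι → Type) [∀ a, Field (K a)]
  [∀ a, NumberField (K a)] (n : ℕ), Fintype.card (Emb K) = n → 3 ≤ n → ∀ ε : ℝ, 0 < ε →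
  ∃ η : ℝ, 0 < η ∧ ∃ C : ℝ, ∀ H : ℕ, 1 ≤ H →
    ({e : RR K | e ∈ Box K H ∧ ¬ (Function.Injective (cj K e) ∧ ∀ f : ℤ[X],
      f.map (Int.castRingHom ℂ) = ∏ i : Emb K, (X - Polynomial.C (cj K e i)) →
        (H : ℝ) ^ ((n : ℝ) / 2 - ε) ≤ (Helper5Frey.Nstar f : ℝ))}.ncard : ℝ) ≤
      C * (H : ℝ) ^ ((n : ℝ) - η)

/-- FIN: the theorem. -/
def FinStmt : Prop := ∀ n : ℕ, 3 ≤ n → ∃ C₀ : ℝ, ∀ κ : ℝ,
  (((n - 1) / 2 : ℕ) : ℝ) * (n - ((n - 1) / 2 : ℕ) - 1) / n < κ →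
  ∀ (ι : Type) [Fintype ι] (K : ι → Type) [∀ a, Field (K a)] [∀ a, NumberField (K a)],
  ∑ a, finrank ℚ (K a) = n →
  (∃ c : ℝ, 0 < c ∧ ∀ H : ℕ, 1 ≤ H → c * (H : ℝ) ^ n ≤ (Box K H).ncard) ∧
  ∃ η : ℝ, 0 < η ∧ ∃ C : ℝ, ∀ H : ℕ, 1 ≤ H →
    ({e : RR K | e ∈ Box K H ∧ ¬ Holds K n κ C₀ e}.ncard : ℝ) ≤ C * (H : ℝ) ^ ((n : ℝ) - η)

end

end Pool.Agent.FK
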